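import Mathlib
import Pool.Agent.helper83.GR.Spec

/-!
# Project ob (MP_baa4d7_al): orbifold coverings and the blocks of small exponent. Definitions.

`PCh`, `cc`, `cv`, `Irr`, `IrrOn`, `nrm`, `IsRadical`, `Induces`, `Extension` are those of
`helper81/DI/Defs.lean` and `helper58/DC/Defs.lean`; `Setup`, `IntAt`, `InM`, `PEl`, `PReg` those of
`helper83/GR/Ari.lean` and `helper83/GR/Spec.lean`.
-/

set_option autoImplicit false

namespace Pool.Agent.OB

open Pool.Agent.helper58.DC Pool.Agent.DI Pool.Agent.GR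

/-- the `p`-part of the order of `N` -/
noncomputable def pp (p : ℕ) (N : Type) : ℕ := p ^ padicValNat p (Nat.card N)

/-- `a - b` is `|G|_p` times an element of the maximal ideal. -/
def Cg (p : ℕ) (M : Ideal (integralClosure ℤ ℂ)) (G : Type) (a b : ℂ) : Prop :=
  ∃ w, InM M w ∧ a - b = (pp p G : ℂ) * w

section

variable {G : Type} [Group G]

/-- The alternating number of the chains of `p`-subgroups with smallest term `1` which are normalised
by `K`. -/
noncomputable def W (p : ℕ) (K : Subgroup G) : ℤ :=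
  ∑ᶠ C ∈ {C : Finset (Subgroup G) | PCh p ⊤ ⊥ C ∧ K ≤ nrm C}, (-1) ^ (C.card + 1)

/-- the conjugate of a subgroup -/
def cj (g : G) (K : Subgroup G) : Subgroup G := K.map (MulAut.conj g).toMonoidHom

/-- class functions with values in the local ring -/
structure ClF (M : Ideal (integralClosure ℤ ℂ)) (f : G → ℂ) : Prop where
  cls : ∀ x y, f (y * x * y⁻¹) = f x
  int : ∀ x, IntAt M (f x)

/-- composition with the power map -/
def pw (k : ℕ) (f : G → ℂ) : G → ℂ := fun x => f (x ^ k)

open Classical in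
/-- the indicator function of the set of all `x` with `x ^ p = 1` -/
noncomputable def tp (p : ℕ) : G → ℂ := fun x => if x ^ p = 1 then 1 else 0

/-- the product of the entries -/
def qq {n : ℕ} (z : Fin n → G) : G := (List.ofFn z).prod

/-- The sphere sum: `g₁(s) g₂(t)` times `W` of the generated subgroup, summed over all
`(z_1, ..., z_n, s, t)` with `z_j ^ p = 1` and `z_1 ⋯ z_n s t = 1`. -/
noncomputable def Sp (p : ℕ) (g₁ g₂ : G → ℂ) (n : ℕ) : ℂ :=
  ∑ᶠ x : (Fin n → G) × G, g₁ x.2 * g₂ (qq x.1 * x.2)⁻¹ * (∏ j, tp p (x.1 j)) *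
    (W p (Subgroup.closure (Set.range x.1 ∪ {x.2})) : ℂ)

/-- The torus sum: the same for the `(t, y, z_1, ..., z_n, s, c)` with `z_j ^ p = 1` and
`[t, y] z_1 ⋯ z_n s c = 1`. -/
noncomputable def To (p : ℕ) (g₁ g₂ : G → ℂ) (n : ℕ) : ℂ :=
  ∑ᶠ x : (G × G) × (Fin n → G) × G,
    g₁ x.2.2 * g₂ (x.1.1 * x.1.2 * x.1.1⁻¹ * x.1.2⁻¹ * qq x.2.1 * x.2.2)⁻¹ *
      (∏ j, tp p (x.2.1 j)) *
      (W p (Subgroup.closure ({x.1.1, x.1.2, x.2.2} ∪ Set.range x.2.1)) : ℂ)

end

/-- A finite `G`-set with a covering transformation `σ`. `gen x` is the subgroup generated by the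
entries of `x`. -/
structure Cfg (p : ℕ) (G X : Type) [Group G] where
  /-- the action of `G` -/
  act : G →* Equiv.Perm X
  /-- the generated subgroup -/
  gen : X → Subgroup G
  gen_act : ∀ g x, gen (act g x) = cj g (gen x)
  fix : ∀ g x, act g x = x ↔ g ∈ cz (gen x)
  /-- the covering transformation -/
  σ : X → X
  /-- the `p`-th power of the covering transformation -/
  κ : X → G
  σ_act : ∀ g x, σ (act g x) = act g (σ x)
  gen_σ : ∀ x, gen (σ x) = gen x
  κ_mem : ∀ x, κ x ∈ gen x
  σ_pow : ∀ x, σ^[p] x = act (κ x) x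
  κ_σ : ∀ x, κ (σ x) = κ x
  κ_act : ∀ g x, κ (act g x) = g * κ x * g⁻¹

section

variable {G : Type} [Group G]

/-- The alternating sum of the numbers of the irreducible characters `ψ` of `N_G(C)` with
`b(ψ)^G = B`, `B` the block of `χ`, over one radical chain `C` of each conjugacy class. -/
noncomputable def aB (p : ℕ) (M : Ideal (integralClosure ℤ ℂ)) (χ : G → ℂ) : ℤ :=
  ∑ᶠ c : Quot (chainRel (G := G) p), (-1) ^ (c.out.1.card - 1) *
    (Nat.card {ψ : G → ℂ // ψ ∈ IrrOn (nrm c.out.1) ∧ Induces M ψ χ} : ℤ)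

open Classical in
/-- A weight for the block of `χ`: modulo `M` the coefficient function of an element of the centre
of the group ring which is congruent to the block idempotent modulo the radical and which is
supported on the `p`-regular elements `g` such that all `p`-elements of `C_G(g)` have order
dividing `e`. -/
structure Wt (p e : ℕ) (M : Ideal (integralClosure ℤ ℂ)) (χ ζ : G → ℂ) : Prop where
  cls : ∀ x y, ζ (y * x * y⁻¹) = ζ x
  int : ∀ x, IntAt M (ζ x)
  sing : ∀ g, ¬ PReg p g → InM M (ζ g)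
  cen : ∀ g, ¬ InM M (ζ g) → ∀ y, y * g = g * y → PEl p y → y ^ e = 1
  blk : ∀ C, IsRadical p C → ∀ ψ ∈ IrrOn (nrm C),
    InM M (cc ψ ζ - if Induces M ψ χ then 1 else 0)

end

end Pool.Agent.OB
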