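import Mathlib
import Pool.Agent.helper12.OB.Defs
import Pool.Agent.helper22.WC.Spec

/-!
# Project ob (MP_baa4d7_al): orbifold coverings modulo p

TARGET (FIN in `SpecC.lean`). Let `O_p(G) = 1`, `B` a block of `G` of positive defect such that for some
`x ∈ G` with `omega_B(x)` not in `M` all `p`-elements of `C_G(x)` have order dividing `e`, where
`(p, e) = (2, 4)` or `(3, 3)` (that is, `D(B)` has exponent dividing `e`). Then the alternating sum of
the numbers `k(N_G(C), B)` is divisible by `p`, and for every extension with `E / G` a `p`-group and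
every `U` the sum over `d` of the alternating sums of Dade's conjecture is divisible by `p`.

RULES FOR MODULES. File `Pool/Agent/<seat>/OB/XX.lean` with

  import Pool.Agent.helper12.OB.SpecA   (or SpecB, SpecC)
  set_option autoImplicit false
  namespace Pool.Agent.OB
  open Pool.Agent.helper58.DC Pool.Agent.DI Pool.Agent.GR
  theorem XX (hYY : YY_stmt) ... : XX_stmt := ...
  end Pool.Agent.OB

auxiliary lemmas prefixed `XX_`, no sorry, no double quotes in the file. Other statements enter only as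
hypotheses; any statement of this file and of the spec files `helper81/DI/Spec{A,B,C,D}` (namespace
`Pool.Agent.DI`), `helper83/GR/Spec` (`Pool.Agent.GR`), `helper22/WC/Spec` (`Pool.Agent.WC`) and
`helper58/DC/Spec1` (`Pool.Agent.helper58.DC`) may be taken as a hypothesis, also if it is not listed
under Uses; all of them are proved.
-/

set_option autoImplicit false

namespace Pool.Agent.OB

open Pool.Agent.helper58.DC Pool.Agent.DI Pool.Agent.GR

/-! ## A. Counting -/

/-- **FRB** (medium). Frobenius: the number of `p`-elements of `K` is divisible by the `p`-part of `|K|`.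
Proof by strong induction on `|K|`. Every element is uniquely `y * v`, `y` a `p`-element, `v` `p`-regular,
`y v = v y` (PPT of GR with `H = ⊤`, `F = 1`; or PPT and `Finset.sum_comm`), so
`|K| = ∑_v n(C_K(v))`, the sum over the `p`-regular `v`, where `n(H)` is the number of `p`-elements of `H`.
For a `v` which is not central `n(C_K(v))` is divisible by `|C_K(v)|_p` (induction; `n` and the order are
invariant under isomorphism), and `v` has `|K| / |C_K(v)|` conjugates with the same `n`; so the sum over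
the conjugacy class of `v` is divisible by `|K|_p` (or: ODV for the action of `K` by conjugation on the
non central `p`-regular elements, `I = ℤ`). The central `p`-regular elements form a subgroup `Z` of order
prime to `p` (Cauchy), each contributes `n(K)`: `|Z| n(K) ≡ 0` modulo `|K|_p`. Uses: PPT of GR, ODV. -/
def FRB_stmt : Prop :=
  ∀ (p : ℕ), p.Prime → ∀ (K : Type) [Group K] [Finite K], pp p K ∣ Nat.card {x : K // PEl p x}

/-- **ODV** (short to medium). Weighted orbit counting. Proof: `X` is the disjoint union of the orbits;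
the orbit of `x` has `|N| / |N_x|` elements (orbit and stabiliser, `a` as a `MulAction`), `f` is constant on it, and
`(|N| / |N_x|) |N_x|_p` is an integral multiple of `|N|_p`. (`MulAction.selfEquivSigmaOrbits`, or strong
induction on `|X|` removing one orbit, or `Finset.sum_fiberwise` over `MulAction.orbitRel.Quotient`.) -/
def ODV_stmt : Prop :=
  ∀ (p : ℕ), p.Prime → ∀ (N X : Type) [Group N] [Finite N] [Finite X] (a : N →* Equiv.Perm X)
    (I : AddSubgroup ℂ) (f : X → ℂ), (∀ n x, f (a n x) = f x) →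
    (∀ x, ∃ w ∈ I, f x = (pp p {n : N // a n x = x} : ℂ) * w) →
    ∃ w ∈ I, ∑ᶠ x, f x = (pp p N : ℂ) * w

/-- **WCJ** (short). Facts on `W`. (1) `C ↦ chainMap (MulAut.conj g) C` is a bijection of the chains
(NM of DC: cardinality and `nrm (chainMap α C) = (nrm C).map α`; the image of a chain with smallest term
`⊥` is one). (2) This is CSE of `helper22/WC/Spec` with `L = ⊤`. (3) (2) for `Y = zpowers y`. -/
def WCJ_stmt : Prop :=
  ∀ (G : Type) [Group G] [Finite G] (p : ℕ) [Fact p.Prime],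
    (∀ (g : G) (K : Subgroup G), W p (cj g K) = W p K) ∧
    (∀ K Y : Subgroup G, IsPGroup p Y → Y ≤ K → K ≤ nz Y → Y ≠ ⊥ → W p K = 0) ∧
    (∀ (K : Subgroup G) (y : G), y ∈ K → (∀ k ∈ K, k * y = y * k) → PEl p y → y ≠ 1 → W p K = 0)

/-- **FRW** (medium). Proof: `H ⊔ zpowers n ≤ nrm C` iff `H ≤ nrm C` and `n ∈ nrm C`; exchange the sums:
the sum is `∑_C (-1)^(|C|+1) #{n ∈ N ⊓ nrm C | n a p-element}` over the chains `C` with `PCh p ⊤ ⊥ C`,
`H ≤ nrm C`. As `N` normalises `H`, it acts on the set of these chains by `chainMap (MulAut.conj n)`; the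
stabiliser of `C` is `N ⊓ nrm C` (SN of DC), the function is invariant, and by FRB (for the group
`N ⊓ nrm C`) it is divisible by the `p`-part of the order of the stabiliser. Use ODV with `I` the set of
integers (`AddSubgroup.zmultiples 1` or the range of `Int.castAddHom ℂ`). Uses: FRB, ODV, NM, SN of DC. -/
def FRW_stmt : Prop :=
  ∀ (G : Type) [Group G] [Finite G] (p : ℕ) [Fact p.Prime] (H N : Subgroup G), N ≤ nz H →
    (pp p N : ℤ) ∣ ∑ᶠ n ∈ {n : G | n ∈ N ∧ PEl p n}, W p (H ⊔ Subgroup.zpowers n)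

/-- **WCD** (short). Proof: FRW with `N = cz H`: for a `p`-element `n ≠ 1` of `cz H` the element `n` is
central in `H ⊔ zpowers n`, so by WCJ (3) the summand is `0`; `n = 1` gives `W p H`. Uses: FRW, WCJ. -/
def WCD_stmt : Prop :=
  ∀ (G : Type) [Group G] [Finite G] (p : ℕ) [Fact p.Prime] (H : Subgroup G),
    (pp p (cz H) : ℤ) ∣ W p H

/-- **LLR** (medium). The local lemma if `κ` is a `p`-element and `H ⊓ C = 1` has no `p`-elements: here
`C = cz H` and `hZ` says that `H` has no central `p`-element `≠ 1`. Let `q` be the order of `κ` (a power of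
`p`), `K = zpowers κ`. `K ≤ H` commutes with `C`, and `C ⊓ K = 1` (`hZ`), so `C₃ = C ⊔ K` is the direct
product, `|C₃| = |C| q`, and it is normalised by `h₀` (which normalises `H`, hence `C`, and commutes with
`κ`). `S = ∑_h W p (H ⊔ zpowers h)`, the sum of the statement.
CASE 1: `h₀ ∈ C₃`, `h₀ = c κ^i`. Then `h₀ ^ p = c^p κ^(ip) ∈ κ C` gives `κ^(ip-1) ∈ C ⊓ K = 1`, so `q ∣ ip - 1` and
`q = 1`, `κ = 1`, `h₀ ∈ C`. The `h` of the sum are the `h ∈ C` with `h ^ p = 1`; for `h ≠ 1` the summand is `0`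
(WCJ (3)), and `h = 1` gives `W p H`. So `S = W p H`.
CASE 2: `h₀ ∉ C₃`. As `h₀ ^ p ∈ κ C ⊆ C₃`, the group `N = C₃ ⊔ zpowers h₀` has order `p |C₃|`, it is the union
of the cosets `h₀^j C₃`, `0 ≤ j < p`, and `N ≤ nz H`. Let `T_j` be the sum of `W p (H ⊔ zpowers n)` over the
`p`-elements `n` of `h₀^j C₃`. By FRW `∑_j T_j` is divisible by `|N|_p = p q |C|_p`.
`T_0 = q W p H`: `n = c κ^i`, `c` is a `p`-element of `C`, `H ⊔ zpowers n = H ⊔ zpowers c`, and WCJ (3) for `c ≠ 1`.
`T_j = T_1` for `1 ≤ j < p`: `n ↦ n^j` is a bijection of the `p`-elements of `h₀ C₃` and of `h₀^j C₃`, as `j` is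
prime to `p` (inverse `n ↦ n^j'` with `j j' ≡ 1` modulo a power of `p` which kills all `p`-elements), and
`zpowers n = zpowers (n^j)`.
`T_1 = q S`: the `p`-elements of `h₀ C₃` are the `u κ^i`, `u` a `p`-element of `h₀ C`, `0 ≤ i < q` (each once since
`C ⊓ K = 1`; `κ` commutes with `h₀` and `C`), and `H ⊔ zpowers (u κ^i) = H ⊔ zpowers u`. For a `p`-element
`u ∈ h₀ C` we have `u ^ p ∈ h₀^p C = κ C` (`h₀` normalises `C`), `c := κ⁻¹ u ^ p ∈ C` commutes with `u` (as `κ` does)
and with `H`, it lies in `H ⊔ zpowers u` and is a `p`-element; so if `c ≠ 1` then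
`W p (H ⊔ zpowers u) = 0` (WCJ (3)); and `u ^ p = κ` implies that `u` is a `p`-element.
So `p q |C|_p` divides `q (W p H + (p - 1) S)`, i.e. `p |C|_p` divides `W p H - S + p S`. As `|C|_p` divides
`W p H` (WCD), it divides `(p - 1) S`, hence `S` (`p - 1` is prime to `p`), and `p |C|_p` divides `p S`.
Uses: FRW, WCD, WCJ. -/
def LLR_stmt : Prop :=
  ∀ (G : Type) [Group G] [Finite G] (p : ℕ) [Fact p.Prime] (H : Subgroup G) (h₀ κ : G),
    h₀ ∈ nz H → κ ∈ H → h₀ * κ = κ * h₀ → κ⁻¹ * h₀ ^ p ∈ cz H → PEl p κ →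
    (∀ y ∈ H, (∀ k ∈ H, k * y = y * k) → PEl p y → y = 1) →
    ((p * pp p (cz H) : ℕ) : ℤ) ∣
      (∑ᶠ h ∈ {h : G | h₀⁻¹ * h ∈ cz H ∧ h ^ p = κ}, W p (H ⊔ Subgroup.zpowers h)) - W p H

/-- **LLB** (medium). The local lemma. CASE A: `Y = O_p(H) ≠ ⊥` (A2 of DI). Then both `W p H` and all
`W p (H ⊔ zpowers h)` are `0` (WCJ (2)): `h ∈ h₀ C` normalises `H`, hence `Y` (A2: `nz H ≤ nz Y`).
CASE B: `O_p(H) = ⊥`, so `H` has no central `p`-element `y ≠ 1` (`zpowers y` would be a normal `p`-subgroup). Write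
`κ = κ₁ κ₂`, `κ₁` a `p`-element and `κ₂` `p`-regular, both powers of `κ`; as `p` is prime to the order of `κ₂` there
is a power `μ` of `κ₂` with `μ ^ p = κ₂`. `μ ∈ H` commutes with `h₀`, `κ₁` and with `C = cz H`. Put `u₀ = μ⁻¹ h₀`.
Then `u₀` normalises `H`, commutes with `κ₁`, and `κ₁⁻¹ u₀ ^ p = κ₁⁻¹ κ₂⁻¹ h₀ ^ p ∈ C`. The map `h ↦ μ⁻¹ h` is a bijection
from `{h | h₀⁻¹ h ∈ C, h ^ p = κ}` to `{u | u₀⁻¹ u ∈ C, u ^ p = κ₁}` (`h = h₀ c` commutes with `μ`), and
`H ⊔ zpowers h = H ⊔ zpowers (μ⁻¹ h)`. Use LLR for `u₀`, `κ₁`. Uses: LLR, WCJ, A2 of DI. -/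
def LLB_stmt : Prop :=
  ∀ (G : Type) [Group G] [Finite G] (p : ℕ) [Fact p.Prime] (H : Subgroup G) (h₀ κ : G),
    h₀ ∈ nz H → κ ∈ H → h₀ * κ = κ * h₀ → κ⁻¹ * h₀ ^ p ∈ cz H →
    ((p * pp p (cz H) : ℕ) : ℤ) ∣
      (∑ᶠ h ∈ {h : G | h₀⁻¹ * h ∈ cz H ∧ h ^ p = κ}, W p (H ⊔ Subgroup.zpowers h)) - W p H

/-- **LDB** (medium). The covering lemma (Theorem D). Proof. Let
`f x = θ x (W p (gen x) - ∑_{h : act h x = σ x, h ^ p = κ x} W p (gen x ⊔ zpowers h))`, so that the left side is
`∑_x f x` (finite sums; group the pairs by the first component). `f` is invariant under `act` (conjugate: WCJ (1),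
`gen_act`, `σ_act`, `κ_act`; `act (g h g⁻¹) (act g x) = act g (σ x) = σ (act g x)`). Put `H = gen x`, `C = cz H` (the
stabiliser of `x` by `fix`).
(a) If `σ x = act h₀ x` for some `h₀`: then `cj h₀ H = gen (act h₀ x) = gen (σ x) = H`, so `h₀ ∈ nz H`; from
`κ x = κ (σ x) = κ (act h₀ x) = h₀ κ h₀⁻¹` `h₀` and `κ = κ x` commute; `σ^[j] x = act (h₀^j) x` by induction
(`σ_act`), so `act (h₀^p) x = act κ x` and `κ⁻¹ h₀ ^ p ∈ C`; the `h` with `act h x = σ x` are those with
`h₀⁻¹ h ∈ C`. By LLB `f x = θ x * (p |C|_p) * k` with an integer `k`.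
(b) Let `X₁` be the (invariant) set of the `x` with (a), `X₂` its complement. For `X₁`: ODV (for the subtype) with
`I = {p w | IntAt M w}`: the sum is `|G|_p p w`.
(c) For `x ∈ X₂` `f x = θ x * W p (gen x)`, which is `|C|_p` times an `IntAt` (WCD), and `f (σ x) = f x`. The
sum over `X₂` is `p |G|_p w`: `X₂` is stable under `act` and `σ` (`σ` is injective as `σ^[p] x = act (κ x) x`,
`κ (σ x) = κ x`: `σ x = σ y` gives `κ x = κ y` and `act κ x = act κ y`). Let `Q` be the set of orbits of `G` on `X₂`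
(`MulAction.orbitRel.Quotient` or `Quotient`), `F(O) = ∑_{x ∈ O} f x = |G|_p w_O` (ODV for one orbit, `IntAt`); `σ` induces
a permutation of `Q` with `σ^p = 1` and without fixed points, and `F` is invariant; so `∑_O F(O)` is `p` times an
integral combination (every orbit of `⟨σ⟩` on `Q` has `p` elements: ODV for the group `Multiplicative (ZMod p)` acting
on `Q`, where all stabilisers are trivial, `I = {|G|_p w | IntAt M w}`, gives `∑ F = p |G|_p w`).
Uses: ODV, WCJ, WCD, LLB. -/
def LDB_stmt : Prop :=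
  ∀ (p : ℕ) (M : Ideal (integralClosure ℤ ℂ)), Setup p M → ∀ (G X : Type) [Group G] [Finite G]
    [Finite X] (c : Cfg p G X) (θ : X → ℂ), (∀ x, IntAt M (θ x)) →
    (∀ g x, θ (c.act g x) = θ x) → (∀ x, θ (c.σ x) = θ x) →
    ∃ w, IntAt M w ∧ (∑ᶠ x : X, θ x * (W p (c.gen x) : ℂ)) -
      ∑ᶠ z ∈ {z : X × G | c.act z.2 z.1 = c.σ z.1 ∧ z.2 ^ p = c.κ z.1},
        θ z.1 * (W p (c.gen z.1 ⊔ Subgroup.zpowers z.2) : ℂ) = ((p * pp p G : ℕ) : ℂ) * w

/-- **LDW** (short). Weights modulo `M`. Proof: ODV with `I` the set of all `w` with `InM M w`, `N = G`,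
`f x = θ x * W p (gen x)`: the stabiliser of `x` is `cz (gen x)`, and `W p (gen x)` is an integral multiple of the
`p`-part of its order (WCD). Uses: ODV, WCD, WCJ. -/
def LDW_stmt : Prop :=
  ∀ (p : ℕ) (M : Ideal (integralClosure ℤ ℂ)), Setup p M → ∀ (G X : Type) [Group G] [Finite G]
    [Finite X] (act : G →* Equiv.Perm X) (gen : X → Subgroup G),
    (∀ g x, gen (act g x) = cj g (gen x)) → (∀ g x, act g x = x ↔ g ∈ cz (gen x)) →
    ∀ θ : X → ℂ, (∀ x, InM M (θ x)) → (∀ g x, θ (act g x) = θ x) →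
    Cg p M G (∑ᶠ x : X, θ x * (W p (gen x) : ℂ)) 0

end Pool.Agent.OB
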