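import Mathlib
import Pool.Agent.helper12.OB.SpecA

/-!
# Project ob (MP_baa4d7_al): the coverings

Rules: see `SpecA.lean`. In this file `g • z` is the tuple `j ↦ g * z j * g⁻¹`, `qq z` the product of the
entries. All three coverings are applications of LDB (`Cfg`): the set `X` describes the homomorphisms of the
group upstairs, the pairs `(x, h)` with `act h x = σ x`, `h ^ p = κ x` describe those of the group downstairs.
In all cases `G` acts by conjugation of all entries, `gen x` is the closure of the set of the entries (so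
`act g x = x` iff `g` commutes with all entries iff `g ∈ cz (gen x)`), and `θ x` is the product of the `g₁`, `g₂`, `tp`
values, which is `IntAt` and invariant under `act` because `g₁`, `g₂`, `tp p` are class functions and `qq` is
equivariant. `tp p (g z g⁻¹) = tp p z`, `(tp p z) ^ m = tp p z` for `m ≥ 1`.
-/

set_option autoImplicit false

namespace Pool.Agent.OB

open Pool.Agent.helper58.DC Pool.Agent.DI Pool.Agent.GR

/-- **BLK** (short). Blocks of a tuple. (The equivalence is composition with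
`finProdFinEquiv : Fin m × Fin n ≃ Fin (m * n)` and currying; `List.ofFn_mul` for the product; the range and the
product of the values of `tp` are clear, `Fintype.prod_equiv`, `Finset.prod_product`.) -/
def BLK_stmt : Prop :=
  ∀ (G : Type) [Group G] (p m n : ℕ), ∃ ε : (Fin m → Fin n → G) ≃ (Fin (m * n) → G),
    (∀ z, qq (ε z) = qq (fun i => qq (z i))) ∧
    (∀ z, Set.range (ε z) = ⋃ i, Set.range (z i)) ∧
    (∀ z, ∏ j, tp p (ε z j) = ∏ i, ∏ j, tp p (z i j)) ∧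
    ∀ (g : G) z, ε (fun i j => g * z i j * g⁻¹) = fun j => g * ε z j * g⁻¹

/-- **SMD** (short to medium). Change of the weights modulo `M`. Proof: LDW with `X = (Fin n → G) × G`, the action
by conjugation, `gen x = closure (range x.1 ∪ {x.2})` and `θ` the difference of the two weights, which is `InM`
(`a b - a' b' = (a - a') b + a' (b - b')`). Uses: LDW. -/
def SMD_stmt : Prop :=
  ∀ (p : ℕ) (M : Ideal (integralClosure ℤ ℂ)), Setup p M → ∀ (G : Type) [Group G] [Finite G]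
    (n : ℕ) (g₁ g₂ f₁ f₂ : G → ℂ), ClF M g₁ → ClF M g₂ → ClF M f₁ → ClF M f₂ →
    (∀ x, InM M (g₁ x - f₁ x)) → (∀ x, InM M (g₂ x - f₂ x)) →
    Cg p M G (Sp p g₁ g₂ n) (Sp p f₁ f₂ n)

/-- **DBL** (medium to long). The covering of degree `p` of the sphere, branched at two points. Proof: LDB with
`X = (Fin p → Fin n → G) × G`, `x = (z_0, ..., z_(p-1), S)`, `θ x = g₁(S) g₂((q_0 ⋯ q_(p-1) S)⁻¹) ∏ tp`,
`q_i = qq (z_i)`, `gen x` the closure of all entries of `x`,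
`σ x = (z_1, ..., z_(p-1), S • z_0, S)`, `κ x = S`. To handle `σ` put `ẑ m = S^(m / p) • z_(m mod p)` for `m ∈ ℕ`; then
`σ^[k] x` has the components `i ↦ ẑ (i + k)` and `S`, so `σ^[p] x = S • x`. `θ (σ x) = θ x`: the new product
`q_1 ⋯ q_(p-1) S q_0 S⁻¹ S = q_0⁻¹ (q_0 ⋯ q_(p-1) S) q_0` is a conjugate of the old one.
`gen (σ x) = gen x`: the entries of each are products of entries of the other one.
UPSTAIRS: `∑_x θ x W(gen x) = Sp p g₁ g₂ (p * n)` (BLK with `m = p`; `qq (fun i => qq (z_i))` is the product).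
DOWNSTAIRS: the pairs `(x, h)` with `act h x = σ x`, `h ^ p = S` correspond to the `(z, s) ∈ (Fin n → G) × G`:
`z = z_0`, `s = h`; conversely `z_i = s^i • z`, `S = s ^ p`, `h = s` (then `s • z_(p-1) = s^p • z = S • z_0`). Here
`q_i = s^i qq(z) s^(-i)` and `q_0 ⋯ q_(p-1) S = (qq(z) s)^p` (induction: `q_0 ⋯ q_(k-1) s^k = (qq(z) s)^k`), so
`θ x = g₁(s^p) g₂(((qq(z) s)⁻¹)^p) ∏_j (tp (z j))^p`, and `gen x ⊔ zpowers s` is the closure of the entries of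
`z` and `s`: the sum is `Sp p (pw p g₁) (pw p g₂) n`. The `w` of LDB is `IntAt`, so `p * w` is `InM`.
Uses: LDB, BLK. -/
def DBL_stmt : Prop :=
  ∀ (p : ℕ) (M : Ideal (integralClosure ℤ ℂ)), Setup p M → ∀ (G : Type) [Group G] [Finite G]
    (n : ℕ) (g₁ g₂ : G → ℂ), ClF M g₁ → ClF M g₂ →
    Cg p M G (Sp p (pw p g₁) (pw p g₂) n) (Sp p g₁ g₂ (p * n))

/-- The word of the covering of degree `2`. -/
def wd2 {G : Type} [Group G] (u v q q' S : G) : G := u * q * v * u⁻¹ * q' * v⁻¹ * S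

/-- The word of the covering of degree `3`. -/
def wd3 {G : Type} [Group G] (v w q₀ q₁ q₂ S : G) : G :=
  q₁ * w * q₀ * v * q₂ * w⁻¹ * v⁻¹ * S

/-- **TW2** (short to medium). The sum over the homomorphisms upstairs, degree `2`, is the torus sum. Proof: the bijection
`(u, v, z, z', S) ↦ (t, y, (z_1, z_2), S) = (u, qq(z) v, (y • z', z), S)` (inverse: `z = z_2`,
`v = qq(z_2)⁻¹ y`, `z' = y⁻¹ • z_1`); `t y t⁻¹ y⁻¹ qq(z_1) qq(z_2) S = wd2 u v qq(z) qq(z') S`; the entries generate the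
same subgroup; BLK with `m = 2` (`qq (fun i : Fin 2 => ..)` is the product of two elements). Uses: BLK. -/
def TW2_stmt : Prop :=
  ∀ (G : Type) [Group G] [Finite G] (n : ℕ) (g₁ g₂ : G → ℂ),
    ∑ᶠ x : (G × G) × ((Fin n → G) × (Fin n → G)) × G,
      g₁ x.2.2 * g₂ (wd2 x.1.1 x.1.2 (qq x.2.1.1) (qq x.2.1.2) x.2.2)⁻¹ *
        ((∏ j, tp 2 (x.2.1.1 j)) * ∏ j, tp 2 (x.2.1.2 j)) *
        (W 2 (Subgroup.closure
          ({x.1.1, x.1.2, x.2.2} ∪ (Set.range x.2.1.1 ∪ Set.range x.2.1.2))) : ℂ) =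
    To 2 g₁ g₂ (2 * n)

/-- **TW3** (short to medium). The same in degree `3`. The bijection
`(v, w, z_0, z_1, z_2, S) ↦ (t, y, (y • z_1, y • z_2, y • z_0), S)`, `t = q_1 w q_0`, `y = v q_2 q_0`, `q_i = qq(z_i)` (inverse:
conjugate by `y⁻¹`, then `w = q_1⁻¹ t q_0⁻¹`, `v = y q_0⁻¹ q_2⁻¹`);
`t y t⁻¹ y⁻¹ (y q_1 q_2 q_0 y⁻¹) S = wd3 v w q_0 q_1 q_2 S`. Uses: BLK. -/
def TW3_stmt : Prop :=
  ∀ (G : Type) [Group G] [Finite G] (n : ℕ) (g₁ g₂ : G → ℂ),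
    ∑ᶠ x : (G × G) × ((Fin n → G) × (Fin n → G) × (Fin n → G)) × G,
      g₁ x.2.2 *
        g₂ (wd3 x.1.1 x.1.2 (qq x.2.1.1) (qq x.2.1.2.1) (qq x.2.1.2.2) x.2.2)⁻¹ *
        ((∏ j, tp 3 (x.2.1.1 j)) * (∏ j, tp 3 (x.2.1.2.1 j)) * ∏ j, tp 3 (x.2.1.2.2 j)) *
        (W 3 (Subgroup.closure ({x.1.1, x.1.2, x.2.2} ∪
          (Set.range x.2.1.1 ∪ Set.range x.2.1.2.1 ∪ Set.range x.2.1.2.2))) : ℂ) =
    To 3 g₁ g₂ (3 * n)

/-- **BR2** (medium to long). The torus as a covering of degree `2` of the sphere with four branch points. Proof: LDB for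
`p = 2`, `X` and `θ` as in TW2, `x = (u, v, z, z', S)`,
`σ x = (u⁻¹, v⁻¹ S, z', z, v⁻¹ S v)`, `κ x = 1`. `σ (σ x) = x`: `(v⁻¹ S)⁻¹ (v⁻¹ S v) = v`,
`(v⁻¹ S)⁻¹ (v⁻¹ S v) (v⁻¹ S) = S`. `θ (σ x) = θ x`: `v⁻¹ S v` is conjugate to `S`, and the new word is
`u⁻¹ q' v⁻¹ S u q (v⁻¹ S)⁻¹ (v⁻¹ S v) = u⁻¹ q' v⁻¹ S u q v`, conjugate to `wd2 u v q q' S = u q v u⁻¹ q' v⁻¹ S`
(`q = qq(z)`, `q' = qq(z')`). `gen (σ x) ≤ gen x` is clear, and equality follows from `σ (σ x) = x`.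
DOWNSTAIRS: the pairs `(x, h)` with `act h x = σ x`, `h ^ 2 = 1` correspond to the
`(h, b, z, s)` with `h ^ 2 = b ^ 2 = 1`: `b = h u`, `s = v h`; conversely `u = h b`, `v = s h`, `z' = h • z`, `S = s ^ 2`.
(`h u h⁻¹ = u⁻¹` gives `b ^ 2 = 1`; `h v h⁻¹ = v⁻¹ S` gives `S = v h v h = s ^ 2`; the other way all conditions are
checked directly with `h⁻¹ = h`, `b⁻¹ = b`.) The word is `(h b q s) ^ 2`, so `θ x` is
`g₁(s^2) g₂(((h b q s)⁻¹)^2) ∏ tp (z j)` and the sum is `Sp 2 (pw 2 g₁) (pw 2 g₂) (n + 2)`, the tuple being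
`Fin.cons h (Fin.cons b z)` (`List.ofFn_succ`, `Fin.prod_univ_succ`; the factors `tp 2 h`, `tp 2 b` express the
conditions on `h`, `b`); `gen x ⊔ zpowers h` is generated by `h, b, s` and the `z j`. Uses: LDB, TW2. -/
def BR2_stmt : Prop :=
  ∀ (M : Ideal (integralClosure ℤ ℂ)), Setup 2 M → ∀ (G : Type) [Group G] [Finite G]
    (n : ℕ) (g₁ g₂ : G → ℂ), ClF M g₁ → ClF M g₂ →
    Cg 2 M G (Sp 2 (pw 2 g₁) (pw 2 g₂) (n + 2)) (To 2 g₁ g₂ (2 * n))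

/-- **BR3** (medium to long). The torus as a covering of degree `3` of the sphere with three branch points. Proof: LDB for
`p = 3`, `X` and `θ` as in TW3, `x = (v, w, z_0, z_1, z_2, S)`,
`σ x = (w, w⁻¹ v⁻¹ S, z_1, z_2, z_0, v⁻¹ S v)`, `κ x = 1`. `σ^[3] x = x`:
`σ^[2] x = (w⁻¹ v⁻¹ S, v, z_2, z_0, z_1, w⁻¹ v⁻¹ S v w)`. `θ (σ x) = θ x`: the new word is
`q_2 (w⁻¹ v⁻¹ S) q_1 w q_0 v` (as `(w⁻¹ v⁻¹ S)⁻¹ w⁻¹ (v⁻¹ S v) = v`), conjugate to the old one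
`q_1 w q_0 v q_2 w⁻¹ v⁻¹ S`.
DOWNSTAIRS: the pairs `(x, h)` with `act h x = σ x`, `h ^ 3 = 1` correspond to the `(h, z, s)` with `h ^ 3 = 1`:
`z = z_0`, `s = v h`; conversely `z_i = h^i • z`, `v = s h⁻¹`, `w = h s h⁻²`, `S = s ^ 3`.
(`w = h v h⁻¹`, `w⁻¹ v⁻¹ S = h w h⁻¹` give `S = v (h v h⁻¹) (h² v h⁻²) = (v h)^3 = s ^ 3`; the other way
`w⁻¹ v⁻¹ S = h² s = h w h⁻¹`.) The word is
`(h q h⁻¹)(h s h⁻²) q (s h⁻¹)(h² q h⁻²)(h² s) = h q s h⁻² q s h q s = (h q s) ^ 3`, so the sum is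
`Sp 3 (pw 3 g₁) (pw 3 g₂) (n + 1)`, the tuple being `Fin.cons h z`. Uses: LDB, TW3. -/
def BR3_stmt : Prop :=
  ∀ (M : Ideal (integralClosure ℤ ℂ)), Setup 3 M → ∀ (G : Type) [Group G] [Finite G]
    (n : ℕ) (g₁ g₂ : G → ℂ), ClF M g₁ → ClF M g₂ →
    Cg 3 M G (Sp 3 (pw 3 g₁) (pw 3 g₂) (n + 1)) (To 3 g₁ g₂ (3 * n))

/-- **LAD** (short). The two towers of coverings. Proof: `pw p (pw k ζ) = pw (p * k) ζ` up to the order of the
factors (`pw p (pw k ζ) x = ζ ((x ^ p) ^ k)`), and `pw k ζ` is a class function with values `IntAt`. `Cg` is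
reflexive, symmetric and transitive (`InM.add`, `InM.neg`, `InM.zero`).
`p = 2`, `e = 4`: `Sp (pw 8 ζ) (pw 8 ζ) 1 ≡ Sp (pw 4 ζ) (pw 4 ζ) (2 * 1) ≡ Sp (pw 2 ζ) (pw 2 ζ) (2 * (2 * 1)) ≡ To ζ ζ (2 * 2)`
by DBL, DBL and BR2 with `n = 2` (`2 * (2 * 1) = 2 + 2`); `Sp (pw 4 ζ) (pw 4 ζ) 1 ≡ Sp (pw 2 ζ) (pw 2 ζ) (2 * 1) ≡ To ζ ζ 0` by
DBL and BR2 with `n = 0`. `p = 3`, `e = 3`: `Sp (pw 9 ζ) (pw 9 ζ) 1 ≡ Sp (pw 3 ζ) (pw 3 ζ) (3 * 1) ≡ To ζ ζ (3 * 2)`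
by DBL and BR3 with `n = 2`; `Sp (pw 3 ζ) (pw 3 ζ) 1 ≡ To ζ ζ 0` by BR3 with `n = 0`. Uses: DBL, BR2, BR3. -/
def LAD_stmt : Prop :=
  ∀ (p e : ℕ), (p = 2 ∧ e = 4 ∨ p = 3 ∧ e = 3) → ∀ (M : Ideal (integralClosure ℤ ℂ)),
    Setup p M → ∀ (G : Type) [Group G] [Finite G] (ζ : G → ℂ), ClF M ζ →
    (∃ n : ℕ, 1 ≤ n ∧ Cg p M G (Sp p (pw (p * e) ζ) (pw (p * e) ζ) 1) (To p ζ ζ n)) ∧
    Cg p M G (Sp p (pw e ζ) (pw e ζ) 1) (To p ζ ζ 0)

end Pool.Agent.OB
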