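import Mathlib
import Pool.Agent.helper12.OB.SpecB

/-!
# Project ob (MP_baa4d7_al): characters, assembly

Rules: see `SpecA.lean`.
-/

set_option autoImplicit false

namespace Pool.Agent.OB

open Pool.Agent.helper58.DC Pool.Agent.DI Pool.Agent.GR

/-! ## D. Evaluation of the torus sums -/

/-- **KRW** (short). All chains and radical chains. Proof: A7 of DI with `L = M = ⊤`, `P₀ = ⊥` and
`g H = if K ≤ H then 1 else 0` (`nz ⊥ = ⊤`, `⊤ ⊓ nrm C = nrm C`), and A8 with `i = MonoidHom.id G`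
(`cmap (MonoidHom.id G) C = C`, its range is `⊤`). Uses: A7, A8 of DI. -/
def KRW_stmt : Prop :=
  ∀ (G : Type) [Group G] [Finite G] (p : ℕ) [Fact p.Prime], IsOp p (⊤ : Subgroup G) ⊥ →
    ∀ K : Subgroup G, W p K =
      ∑ᶠ C ∈ {C : Finset (Subgroup G) | IsRadical p C ∧ K ≤ nrm C}, (-1) ^ (C.card + 1)

/-- **LSB** (short). The value at `1`. Proof: `eS L (IrrOn L) = dl` by EXP of GR (IDM: `cc ψ (eS L (IrrOn L)) = 1 =
cc ψ dl`), so `z 1 = cv z dl 1 = ∑_x z x * eS L (IrrOn L) x⁻¹ = |L|⁻¹ ∑_ψ ψ 1 ∑_x z x ψ x`.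
Uses: EXP, IDM, CVF, CCI of GR, B2 of DI (finiteness, `ψ 1 ≠ 0`). -/
def LSB_stmt : Prop :=
  ∀ (G : Type) [Group G] [Finite G] (L : Subgroup G) (z : G → ℂ), CF L z →
    (Nat.card L : ℂ) * z 1 = ∑ᶠ ψ ∈ IrrOn L, ψ 1 ^ 2 * cc ψ z

/-- **LSA** (short to medium). The number of the commutators. Proof: `w` is a class function of `L` (conjugate the pairs) and vanishes
outside `L`. `∑_h w h ψ h = ∑_{t, y ∈ L} ψ (t y t⁻¹ y⁻¹) = ∑_y ∑_t ψ (y⁻¹ (t y t⁻¹))` is by SCH of GR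
`∑_y |L| ψ y⁻¹ ψ y / ψ 1 = |L|^2 / ψ 1` (B2 of DI). Uses: SCH of GR, B2 of DI. -/
def LSA_stmt : Prop :=
  ∀ (G : Type) [Group G] [Finite G] (L : Subgroup G) (w : G → ℂ),
    (∀ h : G, w h = Nat.card {z : G × G // z.1 ∈ L ∧ z.2 ∈ L ∧
      z.1 * z.2 * z.1⁻¹ * z.2⁻¹ = h}) →
    CF L w ∧ ∀ ψ ∈ IrrOn L, cc ψ w = ((Nat.card L : ℂ) / ψ 1) ^ 2

/-- **TUP** (medium). Frobenius's formula. Proof: write `f'` for the function `f` restricted to `L` (`f' x = f x` for `x ∈ L`,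
`0` otherwise); `cc ψ f' = cc ψ f` for `ψ ∈ IrrOn L`, and `CF L f'` if `f` is a class function. The closure is contained
in `L` iff all entries are in `L`; then `(..)⁻¹ ∈ L` as well. So the left side is the value at `1` of
`cv w (cv tp' (cv tp' .. (cv g₁' g₂')))` (`n` factors `tp'`; induction on `n`, `Fin.cons`, `List.ofFn_succ`), `w` as in LSA:
`cv a b g = ∑_x a x b (x⁻¹ g)`. By LSB, LSA and the multiplicativity of `cc ψ` (CCI of GR, second item) it is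
`|L|⁻¹ ∑_ψ ψ(1)² (|L| / ψ(1))² (cc ψ tp)^n cc ψ g₁ cc ψ g₂`. Uses: LSA, LSB, CVF, CCI of GR, B2 of DI. -/
def TUP_stmt : Prop :=
  ∀ (G : Type) [Group G] [Finite G] (p : ℕ) (L : Subgroup G) (g₁ g₂ : G → ℂ),
    (∀ x y, g₁ (y * x * y⁻¹) = g₁ x) → (∀ x y, g₂ (y * x * y⁻¹) = g₂ x) → ∀ n : ℕ,
    ∑ᶠ x ∈ {x : (G × G) × (Fin n → G) × G |
        Subgroup.closure ({x.1.1, x.1.2, x.2.2} ∪ Set.range x.2.1) ≤ L},
      g₁ x.2.2 * g₂ (x.1.1 * x.1.2 * x.1.1⁻¹ * x.1.2⁻¹ * qq x.2.1 * x.2.2)⁻¹ *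
        (∏ j, tp p (x.2.1 j)) =
    (Nat.card L : ℂ) * ∑ᶠ ψ ∈ IrrOn L, cc ψ g₁ * cc ψ g₂ * (cc ψ (tp p)) ^ n

/-- **TEX** (short). The torus sum. Proof: insert KRW for every closure, exchange the two finite sums and use TUP
for `L = nrm C`. Uses: KRW, TUP. -/
def TEX_stmt : Prop :=
  ∀ (G : Type) [Group G] [Finite G] (p : ℕ) [Fact p.Prime], IsOp p (⊤ : Subgroup G) ⊥ →
    ∀ (g₁ g₂ : G → ℂ), (∀ x y, g₁ (y * x * y⁻¹) = g₁ x) → (∀ x y, g₂ (y * x * y⁻¹) = g₂ x) →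
    ∀ n : ℕ, To p g₁ g₂ n = ∑ᶠ C ∈ {C : Finset (Subgroup G) | IsRadical p C},
      (-1) ^ (C.card + 1) * ((Nat.card (nrm C) : ℂ) *
        ∑ᶠ ψ ∈ IrrOn (nrm C), cc ψ g₁ * cc ψ g₂ * (cc ψ (tp p)) ^ n)

/-- **TPM** (medium). The elements with `x ^ p = 1` and characters of positive defect. Proof: let `t = tp p` restricted to
`L`, `CF L t`, `cc ψ t = cc ψ (tp p)`. As `cc ψ t ^ 2 = cc ψ (cv t t)` (CCI of GR) and `IntAt M (cc ψ t)`, it suffices to show
`InM M (cc ψ (cv t t))` (`InM.or` of Ari). `cc ψ (cv t t)` is the sum over representatives `g` of the classes of `L` of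
`cv t t g * (|L : C_L(g)| ψ g / ψ 1)`, where `cv t t g` is the number of the pairs `(a, b)` in `L` with `a b = g`,
`a ^ p = b ^ p = 1`, and `o = |L : C_L(g)| ψ g / ψ 1` is integral (C3 of DI, indicator function of the class).
If `p` divides `|C_L(g)|` let `u ∈ C_L(g)` have order `p`: `zpowers u` acts by conjugation on the set of the pairs
`(a, b)`; the number of pairs is modulo `p` the number of fixed pairs (`IsPGroup.card_modEq_card_fixedPoints`),
and on the fixed pairs (`a`, `b` commute with `u`) `(a, b) ↦ (a u, u⁻¹ b)` generates an action of the cyclic group of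
order `p` without fixed points; so `p ∣ cv t t g`. If `p` does not divide `c = |C_L(g)|`: `c * o = (|L| / ψ 1) ψ g`
and `|L| / ψ 1` is an integer divisible by `p` (B2 of DI: the degree divides the order; `1 ≤ d`), so `c * o` and hence
`o` is `InM`. (Instead of representatives one may use `|L| cc ψ z = ∑_{g ∈ L} z g (|L| ψ g / ψ 1)` and count with the
orbits of `L`.) Uses: CCI of GR, B2, C3 of DI. -/
def TPM_stmt : Prop :=
  ∀ (p : ℕ) (M : Ideal (integralClosure ℤ ℂ)), Setup p M → ∀ (G : Type) [Group G] [Finite G]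
    (L : Subgroup G), ∀ ψ ∈ IrrOn L, ∀ d : ℤ, 1 ≤ d → Defect p L ψ d → InM M (cc ψ (tp p))

/-- **RDZ** (short). Characters of defect zero. Proof: the degree divides the order (B2 of DI), so there is `d ≥ 0` with
`Defect`. If `d = 0` let `P` be the largest term of `C` (A13); by C14 `P = ⊥`, so `nrm C = ⊤` (all terms are `⊥`), `ψ ∈ Irr G`
(TI of DC); if `Induces M ψ χ` then for the `χ'` of `PosDefect` we have `Induces M χ' ψ` (IM of DC), so `χ' = ψ` by C11, but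
the defect of `χ'` is positive. (As D6 of DI, `Pool/Agent/*/DI/D6.lean`.) Uses: B2, A13, C11, C14 of DI, TI, IM of DC. -/
def RDZ_stmt : Prop :=
  ∀ (p : ℕ) (M : Ideal (integralClosure ℤ ℂ)), Setup p M → ∀ (G : Type) [Group G] [Finite G],
    ∀ χ ∈ Irr G, PosDefect p M χ → ∀ C : Finset (Subgroup G), IsRadical p C →
    ∀ ψ ∈ IrrOn (nrm C), ∃ d : ℤ, Defect p (nrm C) ψ d ∧ (1 ≤ d ∨ ¬ Induces M ψ χ)

/-- **CHM** (short). Sums over radical chains. Proof: ODV for the action of `G` on the set of the radical chains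
by `chainMap (MulAut.conj g)` (NM of DC), `I` the set of the `w` with `InM M w`; the stabiliser of `C` is `nrm C` (SN of DC), and
`|nrm C|` is its `p`-part times a natural number. Uses: ODV, NM, SN of DC. -/
def CHM_stmt : Prop :=
  ∀ (p : ℕ) (M : Ideal (integralClosure ℤ ℂ)), Setup p M → ∀ (G : Type) [Group G] [Finite G]
    (R : Finset (Subgroup G) → ℂ), (∀ C, IsRadical p C → InM M (R C)) →
    (∀ (g : G) (C : Finset (Subgroup G)), IsRadical p C →
      R (chainMap (MulAut.conj g) C) = R C) →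
    Cg p M G (∑ᶠ C ∈ {C : Finset (Subgroup G) | IsRadical p C},
      (-1) ^ (C.card + 1) * ((Nat.card (nrm C) : ℂ) * R C)) 0

/-- **CNJ** (short). Invariance under conjugation. Proof: `ψ ↦ funMap (MulAut.conj g) ψ` is a bijection from `IrrOn (nrm C)` to
`IrrOn (nrm (chainMap (MulAut.conj g) C))` (NM, IF of DC; inverse: `g⁻¹`), and `cc (funMap (MulAut.conj g) ψ) f = cc ψ f` for a
class function `f`; for the second item IM of DC (`funMap (MulAut.conj g) χ = χ`). Uses: NM, IF, IRF, IM of DC. -/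
def CNJ_stmt : Prop :=
  ∀ (G : Type) [Group G] [Finite G] (g : G) (C : Finset (Subgroup G)),
    (∀ (f₁ f₂ : G → ℂ), (∀ x y, f₁ (y * x * y⁻¹) = f₁ x) → (∀ x y, f₂ (y * x * y⁻¹) = f₂ x) →
      ∀ F : ℂ → ℂ → ℂ, ∑ᶠ ψ ∈ IrrOn (nrm (chainMap (MulAut.conj g) C)), F (cc ψ f₁) (cc ψ f₂) =
        ∑ᶠ ψ ∈ IrrOn (nrm C), F (cc ψ f₁) (cc ψ f₂)) ∧
    ∀ (M : Ideal (integralClosure ℤ ℂ)), ∀ χ ∈ Irr G,
      Nat.card {ψ : G → ℂ // ψ ∈ IrrOn (nrm (chainMap (MulAut.conj g) C)) ∧ Induces M ψ χ} =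
        Nat.card {ψ : G → ℂ // ψ ∈ IrrOn (nrm C) ∧ Induces M ψ χ}

/-- **FHH** (short). The torus sum with points of order `p`. Proof: TEX; for a radical chain `C` and `ψ ∈ IrrOn (nrm C)` the product
`cc ψ ζ * cc ψ ζ * (cc ψ (tp p)) ^ n` is `InM`: all factors are `IntAt` (CCI of GR), and by RDZ either the defect is
`≥ 1` and `cc ψ (tp p)` is `InM` (TPM), or `Induces M ψ χ` is false and `cc ψ ζ` is `InM` (`blk`). CHM with CNJ
(`F a b = a * a * b ^ n`). Uses: TEX, TPM, RDZ, CHM, CNJ, CCI of GR. -/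
def FHH_stmt : Prop :=
  ∀ (p e : ℕ) (M : Ideal (integralClosure ℤ ℂ)), Setup p M → ∀ (G : Type) [Group G] [Finite G],
    IsOp p (⊤ : Subgroup G) ⊥ → ∀ χ ∈ Irr G, PosDefect p M χ → ∀ ζ : G → ℂ, Wt p e M χ ζ →
    ∀ n : ℕ, 1 ≤ n → Cg p M G (To p ζ ζ n) 0

/-- **GEX** (medium). Automorphisms of the field of complex numbers. Proof: let `ζ` be a primitive `n`-th root of unity; `ζ ^ s` has the same
minimal polynomial over `ℚ` (`IsPrimitiveRoot.minpoly_eq_pow_coprime`). Let `K = algebraicClosure ℚ ℂ`, normal over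
`ℚ`; there is `σ₀ : K ≃ₐ[ℚ] K` with `σ₀ ζ = ζ ^ s` (`minpoly.exists_algEquiv_of_root` or
`IsAlgClosed`/`Normal` API). Extend `σ₀` to `ℂ`: let `v` be a transcendence basis of `ℂ` over `K`
(`exists_isTranscendenceBasis'`); `R = Algebra.adjoin K (Set.range v)` is isomorphic to `MvPolynomial _ K`
(`AlgebraicIndependent.aevalEquiv`), `MvPolynomial.mapEquiv` of `σ₀` gives a ring automorphism of `R` which extends `σ₀`, and
`ℂ` is an algebraic closure of `R` (`IsAlgClosed.isAlgClosure_of_transcendence_basis`), so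
`IsAlgClosure.equivOfEquiv` extends it to `ℂ` (`IsAlgClosure.equivOfEquiv_algebraMap`). Every `n`-th root of unity is a power
of `ζ`. -/
def GEX_stmt : Prop :=
  ∀ (n s : ℕ), 0 < n → s.Coprime n → ∃ σ : ℂ ≃+* ℂ, ∀ ζ : ℂ, ζ ^ n = 1 → σ ζ = ζ ^ s

/-- **PRM** (short to medium). The power map permutes the characters. Proof: let `k k' ≡ 1` modulo `|G|`, and let `σ` be as in GEX for `n = |G|`,
`s = k'`. `x ↦ x ^ k` is a bijection of `G` with inverse `x ↦ x ^ k'`, so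
`∑_x ζ(x^k) ψ(x) = ∑_x ζ(x) ψ(x^k') = ∑_x ζ(x) σ(ψ x)` (GLP of GR), and `σ(ψ 1) = ψ 1` is a natural number: so
`cc ψ (pw k ζ) = cc (galMap σ ψ) ζ`. `ψ ↦ galMap σ ψ` is a bijection of `IrrOn L` (GLI of GR for `σ` and `σ⁻¹`).
Uses: GEX, GLI, GLP of GR, B2 of DI. -/
def PRM_stmt : Prop :=
  ∀ (G : Type) [Group G] [Finite G] (L : Subgroup G) (ζ : G → ℂ) (k : ℕ),
    k.Coprime (Nat.card G) →
    ∑ᶠ ψ ∈ IrrOn L, cc ψ (pw k ζ) ^ 2 = ∑ᶠ ψ ∈ IrrOn L, cc ψ ζ ^ 2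

/-- **FTT** (short). The torus sum without points of order `p`. Proof: by TEX (`n = 0`) and PRM the left side is
`∑_C (-1)^(|C|+1) |nrm C| ∑_ψ (cc ψ ζ)^2`. By CLA of GR (and CNJ) `|G| aB` is
`∑_C (-1)^(|C|+1) |nrm C| k C`, `k C` the number of the `ψ ∈ IrrOn (nrm C)` with `Induces M ψ χ`. By `blk`
`R C = ∑_ψ (cc ψ ζ)^2 - k C` is `InM` (`IrrOn (nrm C)` is finite; `a - 1` `InM` implies `a^2 - 1` `InM`, for `a` `IntAt`), and it is
invariant (CNJ). Use CHM. Uses: TEX, PRM, CHM, CNJ, CLA of GR, CCI of GR, B2 of DI. -/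
def FTT_stmt : Prop :=
  ∀ (p e : ℕ) (M : Ideal (integralClosure ℤ ℂ)), Setup p M → ∀ (G : Type) [Group G] [Finite G],
    IsOp p (⊤ : Subgroup G) ⊥ → ∀ χ ∈ Irr G, ∀ ζ : G → ℂ, Wt p e M χ ζ →
    ∀ k : ℕ, k.Coprime (Nat.card G) →
    Cg p M G (To p (pw k ζ) (pw k ζ) 0) ((Nat.card G : ℂ) * (aB p M χ : ℂ))

/-- **MTC** (short to medium). The weights agree downstairs. Proof: let `|G| = p^r m`, `p ∤ m`. Take `k ≡ p` modulo `m`, `k ≡ 1` modulo `p ^ r`
(`Nat.chineseRemainder`); `k` is prime to `|G|` and to `p` (also if `r = 0`: then choose `k ≡ 1` modulo `p` instead of `p^r`,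
i.e. use `p ^ (r + 1)`). Let `b ∈ G`, `b = b₁ b₂ = b₂ b₁`, `b₁` a `p`-element, `b₂` `p`-regular, both powers of `b` (PPT of GR or
directly). The order of `b₂` divides `m`, so `b₂ ^ (e k) = b₂ ^ (e p)`. Put `c = b₂ ^ (e p)`; as `e p` is a power of `p`, `b₂` is a
power of `c`; so an element commutes with `c` iff it commutes with `b₂`. `b ^ (p e) = b₁ ^ (p e) c`,
`(b ^ e) ^ k = b₁ ^ (e k) c`.
If `ζ (b ^ (p e))` is not `InM` then by `sing` `b ^ (p e)` is `p`-regular, so `b₁ ^ (p e) = 1`, `ζ c` is not `InM`, and by `cen`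
`b₁ ^ e = 1`; hence `(b ^ e) ^ k = c` and the difference is `0`. If `ζ ((b ^ e) ^ k)` is not `InM` then `b₁ ^ (e k) = 1`, so
`b₁ ^ e = 1` (`k` is prime to `p`), and again both arguments are `c`. Otherwise both values are `InM`. -/
def MTC_stmt : Prop :=
  ∀ (p a : ℕ) (M : Ideal (integralClosure ℤ ℂ)), Setup p M → ∀ (G : Type) [Group G] [Finite G]
    (ζ : G → ℂ), (∀ g, ¬ PReg p g → InM M (ζ g)) →
    (∀ g, ¬ InM M (ζ g) → ∀ y, y * g = g * y → PEl p y → y ^ (p ^ a) = 1) →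
    ∃ k : ℕ, k.Coprime (Nat.card G) ∧
      ∀ b : G, InM M (pw (p * p ^ a) ζ b - pw (p ^ a) (pw k ζ) b)

/-- **UPC** (short). The core theorem. Proof: `k` from MTC (`e = p ^ 2` for `p = 2`, `e = p ^ 1` for `p = 3`), `ζ' = pw k ζ`; `ζ` and `ζ'` are `ClF`.
`0 ≡ To p ζ ζ n` (FHH) `≡ Sp p (pw (p e) ζ) (pw (p e) ζ) 1` (LAD) `≡ Sp p (pw e ζ') (pw e ζ') 1` (SMD, MTC)
`≡ To p ζ' ζ' 0` (LAD for `ζ'`) `≡ |G| aB` (FTT). So `|G| aB = |G|_p w` with `InM M w`; divide by `|G|_p`: the integer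
`(|G| / |G|_p) aB` is `InM`, so divisible by `p` (`InM.natCast`, or `InM` of an integer), and `p ∤ |G| / |G|_p`.
Uses: LAD, SMD, MTC, FHH, FTT. -/
def UPC_stmt : Prop :=
  ∀ (p e : ℕ), (p = 2 ∧ e = 4 ∨ p = 3 ∧ e = 3) → ∀ (M : Ideal (integralClosure ℤ ℂ)),
    Setup p M → ∀ (G : Type) [Group G] [Finite G], IsOp p (⊤ : Subgroup G) ⊥ → ∀ χ ∈ Irr G,
    PosDefect p M χ → ∀ ζ : G → ℂ, Wt p e M χ ζ → (p : ℤ) ∣ aB p M χ

/-! ## E. Extensions -/

/-- **TOA** (short). Proof: TOT of GR with `a = 1`: `dadeSum X p M χ 1` is the right side (every `U` contains `1`), and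
`galCount X M χ 1 (RingEquiv.refl ℂ) C` is the number of the `ψ ∈ IrrOn (nrm C)` with `Induces M ψ χ` (`FixedBy` holds with
`e = 1`). Uses: TOT of GR. -/
def TOA_stmt : Prop :=
  ∀ (G E A : Type) [Group G] [Group E] [Group A] [Finite G] [Finite E] (X : Extension G E A)
    (p : ℕ) (M : Ideal (integralClosure ℤ ℂ)) (χ : G → ℂ),
    aB p M χ = ∑ᶠ d : ℤ, ∑ᶠ V : Subgroup A, altSum X p M χ d V

/-- **PGF** (short to medium). Fixed points of a `p`-group. Proof: both sums are finite sums over `S.Z` (every `z` has one `dfc`; the supports are finite because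
`S.Z` is finite); the difference is minus the sum of `(-1) ^ len z` over the `z` which are not fixed by `A`, a union of orbits of
length divisible by `p` on which `len` is constant (ODV is not needed; e.g. `MulAction.card_modEq_card_fixedPoints` for the
sets of the `z` with `len z` even and odd). -/
def PGF_stmt : Prop :=
  ∀ (p : ℕ) [Fact p.Prime] (A : Type) [Group A] [Finite A], IsPGroup p A → ∀ S : SSet A,
    (p : ℤ) ∣ (∑ᶠ d : ℤ, S.fix d ⊤) - ∑ᶠ d : ℤ, S.fix d ⊥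

/-- **PGS** (short). Proof: `S`, `cls` from CL0 of DC; `altSum X p M χ d U = S.num d U` (CL1), `S.num d ⊤ = S.fix d ⊤` and
`∑_V S.num d V = S.fix d ⊥` (MB of `helper58/DC/Spec2`), TOA, PGF. Uses: CL0, CL1, MB of DC, TOA, PGF. -/
def PGS_stmt : Prop :=
  ∀ (p : ℕ) [Fact p.Prime] (M : Ideal (integralClosure ℤ ℂ)) (G E A : Type) [Group G] [Group E]
    [Group A] [Finite G] [Finite E] [Finite A] (X : Extension G E A), IsPGroup p A →
    ∀ χ ∈ Irr G, Stable X M χ →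
    (p : ℤ) ∣ (∑ᶠ d : ℤ, altSum X p M χ d ⊤) - aB p M χ

/-- **MOP** (short). Möbius inversion modulo `p`. (Downward induction on `U`, as D13 of DI.) -/
def MOP_stmt : Prop :=
  ∀ (A : Type) [Group A] [Finite A] (m : ℤ) (a : Subgroup A → ℤ),
    (∀ U : Subgroup A, m ∣ ∑ᶠ V : {V : Subgroup A // U ≤ V}, a V.1) → ∀ U, m ∣ a U

/-- **PGA** (short). All `U`. Proof: MOP with `a V = ∑_d altSum X p M χ d V`. For `U ≤ A` the sum over `V ≥ U` is
`∑_d altSum (resE X U) p M χ d ⊤` (RE of DC; exchange finite sums, FN of DC). If all summands are `0` it is `0`; otherwise the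
block is stable under `resE X U` (ST of DC), and PGS for `resE X U` (whose quotient `U` is a `p`-group) shows that it is congruent to
`aB p M χ`. Uses: MOP, PGS, RE, ST, FN of DC. -/
def PGA_stmt : Prop :=
  ∀ (p : ℕ) [Fact p.Prime] (M : Ideal (integralClosure ℤ ℂ)) (G E A : Type) [Group G] [Group E]
    [Group A] [Finite G] [Finite E] (X : Extension G E A), IsPGroup p A →
    ∀ χ ∈ Irr G, (p : ℤ) ∣ aB p M χ →
    ∀ U : Subgroup A, (p : ℤ) ∣ ∑ᶠ d : ℤ, altSum X p M χ d U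

/-- **WTE** (rows in `Pool/Agent/helper22/OB/SpecZ.lean`). Existence of the weight. -/
def WTE_stmt : Prop :=
  ∀ (p e : ℕ) (M : Ideal (integralClosure ℤ ℂ)), Setup p M → ∀ (G : Type) [Group G] [Finite G],
    ∀ χ ∈ Irr G, (∃ x : G, ¬ InM M (omega χ x) ∧ ∀ y, y * x = x * y → PEl p y → y ^ e = 1) →
    ∃ ζ : G → ℂ, Wt p e M χ ζ

/-- **UPF** (short). The theorem. Uses: UPC, PGA, WTE. -/
def UPF_stmt : Prop :=
  ∀ (p e : ℕ), (p = 2 ∧ e = 4 ∨ p = 3 ∧ e = 3) → ∀ (M : Ideal (integralClosure ℤ ℂ)),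
    Setup p M → ∀ (G : Type) [Group G] [Finite G], IsOp p (⊤ : Subgroup G) ⊥ → ∀ χ ∈ Irr G,
    PosDefect p M χ → (∃ x : G, ¬ InM M (omega χ x) ∧ ∀ y, y * x = x * y → PEl p y → y ^ e = 1) →
    (p : ℤ) ∣ aB p M χ ∧ ∀ (E A : Type) [Group E] [Group A] [Finite E] (X : Extension G E A),
      IsPGroup p A → ∀ U : Subgroup A, (p : ℤ) ∣ ∑ᶠ d : ℤ, altSum X p M χ d U

end Pool.Agent.OB
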