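import Pool.Agent.helper12.OB.SpecC

set_option autoImplicit false

namespace Pool.Agent.OB

open Pool.Agent.helper58.DC Pool.Agent.DI Pool.Agent.GR

/-- For every extension and every `p`-subgroup `U` of `A`. -/
def PGV_stmt : Prop :=
  ∀ (p : ℕ) [Fact p.Prime] (M : Ideal (integralClosure ℤ ℂ)) (G E A : Type) [Group G] [Group E]
    [Group A] [Finite G] [Finite E] (X : Extension G E A),
    ∀ χ ∈ Irr G, (p : ℤ) ∣ aB p M χ →
    ∀ U : Subgroup A, IsPGroup p U →
      (p : ℤ) ∣ ∑ᶠ d : ℤ, ∑ᶠ V : {V : Subgroup A // U ≤ V}, altSum X p M χ d V.1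

theorem PGV (hPGS : PGS_stmt) (hRE : RE_stmt) (hST : ST_stmt) : PGV_stmt := by
  classical
  intro p _ M G E A _ _ _ _ _ X χ hχ hdvd U hU
  haveI : Finite A := Finite.of_surjective X.proj X.proj_surjective
  have h1 : ∑ᶠ d : ℤ, ∑ᶠ V : {V : Subgroup A // U ≤ V}, altSum X p M χ d V.1 =
      ∑ᶠ d : ℤ, altSum (resE X U) p M χ d ⊤ :=
    finsum_congr fun d => (hRE G E A X p M χ hχ d U).symm
  rw [h1]
  by_cases h2 : ∀ d : ℤ, altSum (resE X U) p M χ d ⊤ = 0
  · rw [finsum_congr h2, finsum_zero]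
    exact dvd_zero _
  · push_neg at h2
    obtain ⟨d, hd⟩ := h2
    have h3 : Stable (resE X U) M χ := hST G _ U (resE X U) p M χ hχ d hd
    have h4 := hPGS p M G _ U (resE X U) hU χ hχ h3
    have h5 := dvd_add h4 hdvd
    rwa [sub_add_cancel] at h5

end Pool.Agent.OB
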