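import Pool.Agent.helper12.OB.SpecC
import Pool.Agent.helper22.OB.SpecZ

set_option autoImplicit false

namespace Pool.Agent.OB

open Pool.Agent.helper58.DC Pool.Agent.DI Pool.Agent.GR

theorem PRM (hZT5 : ZT5_stmt) : PRM_stmt := by
  intro G _ _ L ζ k hk
  exact hZT5 G k hk L ζ (fun _ b => b ^ 2)

theorem WTE (hZT0 : ZT0_stmt) (hZT1 : ZT1_stmt) (hZT2 : ZT2_stmt) (hZT3 : ZT3_stmt) : WTE_stmt := by
  intro p e M hM G _ _ χ hχ hx
  obtain ⟨x, hx1, hx2⟩ := hx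
  refine ⟨zeta M χ, ?_, ?_, ?_, ?_, ?_⟩
  · exact (hZT0 p M hM G χ).1
  · exact (hZT0 p M hM G χ).2.1
  · intro g hg
    have hg' : p ∣ orderOf g := by
      unfold PReg at hg
      exact not_not.1 hg
    rw [hZT1 p M hM G χ g hg']
    exact InM.zero hM
  · intro g hg y hy hp
    exact hZT2 p M hM G χ hχ e x hx1 (fun y hy hp => hx2 y hy hp) g hg y hy hp
  · intro C hC ψ hψ
    exact hZT3 p M hM G χ hχ C hC ψ hψ

end Pool.Agent.OB
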