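import Pool.Agent.helper83.GR.All
import Pool.Agent.helper35.DR.AllDI
import Pool.Agent.helper32.DC.CL0
import Pool.Agent.helper48.DC.CL1
import Pool.Agent.helper48.DC.MB
import Pool.Agent.helper99.DC.PM
import Pool.Agent.helper22.WC.CSE
import Pool.Agent.helper30.OB.ZT0
import Pool.Agent.helper78.OB.ZT1
import Pool.Agent.helper75.OB.ZTI
import Pool.Agent.helper31.OB.ZT2
import Pool.Agent.helper48.OB.ZT3
import Pool.Agent.helper68.OB.ZT4
import Pool.Agent.helper25.OB.ZT5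
import Pool.Agent.helper12.OB.PRM
import Pool.Agent.helper12.OB.PGV
import Pool.Agent.helper98.OB.FRB
import Pool.Agent.helper13.OB.ODV
import Pool.Agent.helper83.OB.WCJ
import Pool.Agent.helper8.OB.FRW
import Pool.Agent.helper52.OB.WCD
import Pool.Agent.helper28.OB.LLR
import Pool.Agent.helper89.OB.LLB
import Pool.Agent.helper25.OB.LDB
import Pool.Agent.helper74.OB.LDW
import Pool.Agent.helper49.OB.BLK
import Pool.Agent.helper29.OB.SMD
import Pool.Agent.helper50.OB.DBL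
import Pool.Agent.helper41.OB.TW2
import Pool.Agent.helper48.OB.TW3
import Pool.Agent.helper75.OB.BR2
import Pool.Agent.helper2.OB.BR3
import Pool.Agent.helper63.OB.LAD
import Pool.Agent.helper11.OB.KRW
import Pool.Agent.helper80.OB.LSB
import Pool.Agent.helper80.OB.LSA
import Pool.Agent.helper80.OB.TUP
import Pool.Agent.helper92.OB.TEX
import Pool.Agent.helper31.OB.TPM
import Pool.Agent.helper11.OB.RDZ
import Pool.Agent.helper11.OB.CHM
import Pool.Agent.helper11.OB.CNJ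
import Pool.Agent.helper78.OB.FHH
import Pool.Agent.helper54.OB.FTT
import Pool.Agent.helper64.OB.MTC
import Pool.Agent.helper70.OB.UPC
import Pool.Agent.helper11.OB.TOA
import Pool.Agent.helper48.OB.PGF
import Pool.Agent.helper11.OB.PGS
import Pool.Agent.helper11.OB.MOP
import Pool.Agent.helper11.OB.PGA

/-! Assembly of project ob (MP_baa4d7_al): blocks of small exponent. -/

set_option autoImplicit false

namespace Pool.Agent.OB.All

open Pool.Agent Pool.Agent.OB Pool.Agent.helper58.DC Pool.Agent.DI Pool.Agent.GR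
open Pool.Agent.GR.All Pool.Agent.DR.AllDI

theorem oCSE : Pool.Agent.WC.CSE_stmt := Pool.Agent.WC.CSE iA1
theorem oPM : PM_stmt := helper99.DC.PM iNMx iSNx iIFx iOMx iIMx
theorem oCL0 : CL0_stmt := helper32.DC.CL0 oPM
theorem oCL1 : CL1_stmt := helper48.DC.CL1 oPM iNMx iSNx iIFx
theorem oMB : MB_stmt := helper48.DC.MB

theorem oZT0 : ZT0_stmt := OB.ZT0 dIDM dEIN dBCL iTIx
theorem oZT1 : ZT1_stmt := OB.ZT1 dBR0 dBCL
theorem oZTI : ZTI_stmt := OB.ZTI dBRH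
theorem oZT4 : ZT4_stmt := OB.ZT4 dGLI dGLP
theorem oZT5 : ZT5_stmt := OB.ZT5 oZT4
theorem oZT2 : ZT2_stmt := OB.ZT2 oZT0 oZTI dEXP dCCI dCVF iOIx iTIx iC3
theorem oZT3 : ZT3_stmt := OB.ZT3 oZT0 iC3 iC9

theorem oODV : ODV_stmt := OB.ODV
theorem oFRB : FRB_stmt := OB.FRB dPPT oODV
theorem oWCJ : WCJ_stmt := OB.WCJ iNMx oCSE
theorem oFRW : FRW_stmt := OB.FRW oFRB oODV iNMx iSNx
theorem oWCD : WCD_stmt := OB.WCD oFRW oWCJ
theorem oLLR : LLR_stmt := OB.LLR oFRW oWCD oWCJ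
theorem oLLB : LLB_stmt := OB.LLB oLLR oWCJ iA2
theorem oLDB : LDB_stmt := OB.LDB oODV oWCJ oWCD oLLB
theorem oLDW : LDW_stmt := OB.LDW oODV oWCD oWCJ
theorem oBLK : BLK_stmt := OB.BLK
theorem oSMD : SMD_stmt := OB.SMD oLDW
theorem oDBL : DBL_stmt := OB.DBL oLDB oBLK
theorem oTW2 : TW2_stmt := OB.TW2 oBLK
theorem oTW3 : TW3_stmt := OB.TW3 oBLK
theorem oBR2 : BR2_stmt := OB.BR2 oLDB oTW2
theorem oBR3 : BR3_stmt := OB.BR3 oLDB oTW3
theorem oLAD : LAD_stmt := OB.LAD oDBL oBR2 oBR3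
theorem oKRW : KRW_stmt := OB.KRW iA7 iA8
theorem oLSB : LSB_stmt := OB.LSB dEXP dIDM dCVF dCCI iB2
theorem oLSA : LSA_stmt := OB.LSA dSCH iB2
theorem oTUP : TUP_stmt := OB.TUP oLSA oLSB dCVF dCCI iB2
theorem oTEX : TEX_stmt := OB.TEX oKRW oTUP
theorem oTPM : TPM_stmt := OB.TPM dCCI iB2 iC3
theorem oRDZ : RDZ_stmt := OB.RDZ iB2 iA13 iC11 iC14 iTIx iIMx
theorem oCHM : CHM_stmt := OB.CHM oODV iNMx iSNx
theorem oCNJ : CNJ_stmt := OB.CNJ iNMx iIFx iIRFx iIMx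
theorem oFHH : FHH_stmt := OB.FHH oTEX oTPM oRDZ oCHM oCNJ dCCI
theorem oPRM : PRM_stmt := OB.PRM oZT5
theorem oCLA : CLA_stmt := GR.CLA iNMx iSNx
theorem oFTT : FTT_stmt := OB.FTT oTEX oPRM oCHM oCNJ oCLA dCCI iB2
theorem oMTC : MTC_stmt := OB.MTC dPPT
theorem oUPC : UPC_stmt := OB.UPC oLAD oSMD oMTC oFHH oFTT
theorem oTOT : TOT_stmt := GR.TOT iB2
theorem oTOA : TOA_stmt := OB.TOA oTOT
theorem oPGF : PGF_stmt := OB.PGF
theorem oPGS : PGS_stmt := OB.PGS oCL0 oCL1 oMB oTOA oPGF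
theorem oMOP : MOP_stmt := OB.MOP
theorem oPGA : PGA_stmt := OB.PGA oMOP oPGS iREx iSTx iFNx
theorem oPGV : PGV_stmt := OB.PGV oPGS iREx iSTx
theorem oWTE : WTE_stmt := OB.WTE oZT0 oZT1 oZT2 oZT3

end Pool.Agent.OB.All
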