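import Pool.Agent.helper35.DR.AllDI
import Pool.Agent.helper50.DD.CPL
import Pool.Agent.helper22.WC.FNA
import Pool.Agent.helper22.WC.IND
import Pool.Agent.helper22.WC.TRS
import Pool.Agent.helper22.WC.CSE
import Pool.Agent.helper22.WC.CSM
import Pool.Agent.helper22.WC.MOB
import Pool.Agent.helper22.WC.KEY
import Pool.Agent.helper22.WC.RBX
import Pool.Agent.helper22.WC.TRK
import Pool.Agent.helper22.WC.SBX
import Pool.Agent.helper29.WC.SKA
import Pool.Agent.helper89.WC.SKB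
import Pool.Agent.helper68.WC.SKC
import Pool.Agent.helper45.WC.SRL
import Pool.Agent.helper8.WC.SEP
import Pool.Agent.helper32.WC.SLP
import Pool.Agent.helper98.WC.D1T
import Pool.Agent.helper39.WC.FNB

/-! Assembly of project wc (MP_baa4d7_al): chain-free form, surface groups. -/

set_option autoImplicit false

namespace Pool.Agent.OB.AllW

open Pool.Agent Pool.Agent.WC Pool.Agent.helper58.DC Pool.Agent.DR.AllDI

theorem wMOB : MOB_stmt := WC.MOB
theorem wCSE : CSE_stmt := WC.CSE iA1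
theorem wCSM : CSM_stmt := WC.CSM wCSE iA2
theorem wSBX : SBX_stmt := WC.SBX
theorem wTRK : TRK_stmt := WC.TRK wSBX iB13 iB14 iIFx
theorem wTRS : TRS_stmt := WC.TRS wSBX wTRK iA7 iA8 iA14
theorem wKEY : KEY_stmt := WC.KEY wMOB wCSM wSBX wTRS iA14
theorem wRBX : RBX_stmt := WC.RBX iD1 iD5 iC15 iC9 iB2
theorem wIND : IND_stmt := WC.IND wKEY wRBX iD1 iC16 iC1
theorem wFNA : FNA_stmt := WC.FNA wIND iD13 iD6 iREx iSTx
theorem wD1T : D1T_stmt := WC.D1T iNMx iSNx iIFx
theorem wFNB : FNB_stmt := WC.FNB wKEY wD1T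
theorem wSKA : SKA_stmt := WC.SKA iB1 iB4 iIRTx
theorem wSKB : SKB_stmt := WC.SKB iB1 Pool.Agent.DD.CPL
theorem wSKC : SKC_stmt := WC.SKC wSKA wSKB iC4
theorem wSRL : SRL_stmt := WC.SRL wSKC wSBX iB13 iIFx
theorem wSEP : SEP_stmt := WC.SEP wMOB
theorem wSLP : SLP_stmt := WC.SLP iB2

end Pool.Agent.OB.AllW
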