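import Mathlib
import Pool.Agent.helper58.DC.Defs

/-!
# Dade's conjecture modulo 2 and 3: definitions for the statement

`Irr`, `IrrOn`, `omega`, `Induces`, `nrm`, `chainRel` are those of `helper58/DC/Defs.lean`. `B` is the block of the
irreducible character `χ` of `G`.
-/

set_option autoImplicit false

namespace Pool.Agent.M23h

open Pool.Agent.helper58.DC

variable {G : Type} [Group G]

/-- The central character of `B` at the class sum of `g` is not `0` modulo `M`. -/
def NonVan (M : Ideal (integralClosure ℤ ℂ)) (χ : G → ℂ) (g : G) : Prop :=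
  ∀ a ∈ M, omega χ g ≠ ((a : integralClosure ℤ ℂ) : ℂ)

/-- `D` is a defect group of `B`, in the form of Brauer's min-max theorem: `D` is a Sylow `p`-subgroup of `C_G(x)` for
a `p`-regular element `x` with `NonVan M χ x`, and `|D|` is smallest possible: for every `y ∈ G` with
`NonVan M χ y` the order of a Sylow `p`-subgroup of `C_G(y)` is at least `|D|`. -/
def DefectGroup (p : ℕ) (M : Ideal (integralClosure ℤ ℂ)) (χ : G → ℂ) (D : Subgroup G) : Prop :=
  ∃ x : G, ¬ p ∣ orderOf x ∧ NonVan M χ x ∧ D ≤ Subgroup.centralizer {x} ∧ IsPGroup p D ∧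
    ¬ p ∣ D.relIndex (Subgroup.centralizer {x}) ∧
    ∀ y : G, NonVan M χ y → ∃ Q : Subgroup G, Q ≤ Subgroup.centralizer {y} ∧ IsPGroup p Q ∧
      Nat.card D ≤ Nat.card Q

/-- `y` is conjugate in `H` to all generators `y ^ m` of `⟨y⟩` with `m ≡ 1` modulo `k`. -/
def PowerConj (H : Subgroup G) (k : ℕ) (y : G) : Prop :=
  ∀ m : ℕ, m.Coprime (orderOf y) → m ≡ 1 [MOD k] → ∃ h ∈ H, h * y * h⁻¹ = y ^ m

/-- `y` is a product of two elements `r, s` of `H` with `r ^ 2 = s ^ 2 = 1`. -/
def TwoInv (H : Subgroup G) (y : G) : Prop :=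
  ∃ r ∈ H, ∃ s ∈ H, r ^ 2 = 1 ∧ s ^ 2 = 1 ∧ r * s = y

/-- The condition on `B`.
(a) There is a defect group `D ≠ 1` of `B` such that no element `y` of `D` of order `p e` with `y ^ e` in the centre of
`D` is conjugate in `D` to all its powers `y ^ m` with `m ≡ 1` modulo `p`; if `p = 2` and `B` is the principal block,
only the `y` with `TwoInv D y` count.
(b) There is `g ∈ G` with `NonVan M χ g` such that no `b ∈ G` with `b ^ e = g` is conjugate in `G` to all generators
`b ^ m` of `⟨b⟩` with `m ≡ 1` modulo the order of `g`; if `p = 2` and `B` and `g` are real (`B` contains the complex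
conjugate of `χ`, `g` is conjugate to `g⁻¹`), only the `b` with `TwoInv ⊤ b` count. -/
def Cond (p e : ℕ) (M : Ideal (integralClosure ℤ ℂ)) (χ : G → ℂ) : Prop :=
  (∃ D : Subgroup G, DefectGroup p M χ D ∧ D ≠ ⊥ ∧
      ∀ y ∈ D, orderOf y = p * e → (∀ d ∈ D, y ^ e * d = d * y ^ e) → PowerConj D p y →
        p = 2 ∧ Induces M (fun _ => (1 : ℂ)) χ ∧ ¬ TwoInv D y) ∨
    ∃ g : G, NonVan M χ g ∧ ∀ b : G, b ^ e = g → PowerConj ⊤ (orderOf g) b →
      p = 2 ∧ Induces M (fun x => χ x⁻¹) χ ∧ IsConj g g⁻¹ ∧ ¬ TwoInv ⊤ b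

end Pool.Agent.M23h
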