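import Pool.Agent.helper22.OB.SpecU
import Pool.Agent.helper25.OB.UP2

/-!
# Project ob (MP_baa4d7_al): real blocks, `p = 2`

The orbifold with the group `⟨a, b | a ^ 2 = 1⟩` has the reflection `a ↦ a⁻¹`, `b ↦ b⁻¹`. If the block and the class of
`g` are real the weights are invariant, and for the fixed homomorphisms `f` there is `h` with `h ^ 2 = 1` which inverts
`s = f b`, so `s = (s h) h` is a product of two involutions.
-/

set_option autoImplicit false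

namespace Pool.Agent.OB

open Pool.Agent.helper58.DC Pool.Agent.DI Pool.Agent.GR

section

variable {G : Type} [Group G]

/-- inversion of the argument -/
def ivf (f : G → ℂ) : G → ℂ := fun x => f x⁻¹

theorem RVZ_conj (g x : G) : x⁻¹ ∈ conjugatesOf g⁻¹ ↔ x ∈ conjugatesOf g := by
  have h : ∀ a b : G, b ∈ conjugatesOf a → b⁻¹ ∈ conjugatesOf a⁻¹ := by
    intro a b hb
    obtain ⟨c, hc⟩ := isConj_iff.1 (show IsConj a b from hb)
    refine (show IsConj a⁻¹ b⁻¹ from isConj_iff.2 ⟨c, ?_⟩)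
    rw [← hc]
    group
  constructor
  · intro h1
    have h2 := h _ _ h1
    rwa [inv_inv, inv_inv] at h2
  · exact h _ _

theorem RVZ_omega (ψ : G → ℂ) (g : G) : omega (ivf ψ) g = omega ψ g⁻¹ := by
  unfold omega
  have h1 : ivf ψ 1 = ψ 1 := by
    unfold ivf
    rw [inv_one]
  rw [h1]
  congr 1
  refine finsum_mem_eq_of_bijOn (fun x => x⁻¹) ?_ fun x _ => rfl
  refine ⟨fun x hx => (RVZ_conj g x).2 hx, fun x _ y _ h => inv_injective h, fun y hy => ?_⟩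
  refine ⟨y⁻¹, ?_, inv_inv y⟩
  have h2 := (RVZ_conj g⁻¹ y).2 hy
  rwa [inv_inv] at h2

theorem RVZ_irr (hZT4 : ZT4_stmt) [Finite G] (H : Subgroup G) {ψ : G → ℂ} (hψ : ψ ∈ IrrOn H) :
    ivf ψ ∈ IrrOn H := by
  have hn : 1 ≤ Nat.card G := Nat.card_pos
  have h1 : (Nat.card G - 1).Coprime (Nat.card G) := by
    have h2 : Nat.Coprime (Nat.card G - 1) (Nat.card G - 1 + 1) := by simp
    rwa [Nat.sub_add_cancel hn] at h2
  have h2 := hZT4 G (Nat.card G - 1) h1 H ψ hψ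
  have h3 : ivf ψ = fun g => ψ (g ^ (Nat.card G - 1)) := by
    funext g
    unfold ivf
    congr 1
    rw [inv_eq_iff_mul_eq_one, ← pow_succ', Nat.sub_add_cancel hn, pow_card_eq_one']
  rw [h3]
  exact h2

/-- **RVZ**: the block idempotent of a real block. -/
theorem RVZ (hZT4 : ZT4_stmt) [Finite G] {M : Ideal (integralClosure ℤ ℂ)} {χ : G → ℂ}
    (hr : Induces M (fun x => χ x⁻¹) χ) (x : G) : zeta M χ x⁻¹ = zeta M χ x := by
  have hst : ∀ ψ ∈ Blk M χ ⊤, ivf ψ ∈ Blk M χ ⊤ := by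
    rintro ψ ⟨h1, h2⟩
    refine ⟨RVZ_irr hZT4 ⊤ h1, fun g => ?_⟩
    obtain ⟨a, ha, hea⟩ := h2 g⁻¹
    obtain ⟨b, hb, heb⟩ := hr g
    have e1 : omega (fun x => χ x⁻¹) g = omega χ g⁻¹ := RVZ_omega χ g
    refine ⟨a + b, M.add_mem ha hb, ?_⟩
    rw [RVZ_omega]
    push_cast
    rw [← hea, ← heb, e1]
    ring
  have hiv : ∀ ψ : G → ℂ, ivf (ivf ψ) = ψ := by
    intro ψ
    funext y
    unfold ivf
    rw [inv_inv]
  unfold zeta eS
  congr 1
  refine finsum_mem_eq_of_bijOn ivf ⟨fun ψ hψ => hst ψ hψ, ?_, ?_⟩ ?_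
  · intro ψ _ ψ' _ h
    have h1 : ivf (ivf ψ) = ivf (ivf ψ') := by rw [h]
    rwa [hiv, hiv] at h1
  · intro ψ hψ
    exact ⟨ivf ψ, hst ψ hψ, hiv ψ⟩
  · intro ψ _
    unfold ivf
    simp only [inv_inv, inv_one]

/-! ### The reflection -/

/-- conjugation of all entries -/
def RFL_cj (g : G) (x : (Fin 1 → G) × G) : (Fin 1 → G) × G :=
  (fun j => g * x.1 j * g⁻¹, g * x.2 * g⁻¹)

theorem RFL_cj_one (x : (Fin 1 → G) × G) : RFL_cj 1 x = x := by
  simp [RFL_cj]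

theorem RFL_cj_mul (g h : G) (x : (Fin 1 → G) × G) :
    RFL_cj (g * h) x = RFL_cj g (RFL_cj h x) := by
  simp [RFL_cj, mul_assoc]

/-- the action -/
def RFL_act : G →* Equiv.Perm ((Fin 1 → G) × G) where
  toFun g :=
    { toFun := RFL_cj g
      invFun := RFL_cj g⁻¹
      left_inv := fun x => by rw [← RFL_cj_mul, inv_mul_cancel, RFL_cj_one]
      right_inv := fun x => by rw [← RFL_cj_mul, mul_inv_cancel, RFL_cj_one] }
  map_one' := Equiv.ext RFL_cj_one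
  map_mul' g h := Equiv.ext (RFL_cj_mul g h)

theorem RFL_act_apply (g : G) (x : (Fin 1 → G) × G) : RFL_act g x = RFL_cj g x := rfl

/-- the set of the entries -/
def RFL_ent (x : (Fin 1 → G) × G) : Set G := Set.range x.1 ∪ {x.2}

theorem RFL_ent_cj (g : G) (x : (Fin 1 → G) × G) :
    RFL_ent (RFL_cj g x) = (MulAut.conj g).toMonoidHom '' RFL_ent x := by
  unfold RFL_ent
  rw [Set.image_union, ← Set.range_comp, Set.image_singleton]
  rfl

theorem RFL_fix (g : G) (x : (Fin 1 → G) × G) :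
    RFL_cj g x = x ↔ g ∈ cz (Subgroup.closure (RFL_ent x)) := by
  rw [cz, Subgroup.centralizer_closure, Subgroup.mem_centralizer_iff]
  have h1 : ∀ a : G, g * a * g⁻¹ = a ↔ a * g = g * a := fun a => by
    rw [mul_inv_eq_iff_eq_mul]
    exact eq_comm
  constructor
  · intro h a ha
    rw [← h1]
    have e1 := congrArg (fun y : (Fin 1 → G) × G => y.1) h
    have e2 := congrArg (fun y : (Fin 1 → G) × G => y.2) h
    rcases ha with ⟨j, rfl⟩ | rfl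
    · exact congrFun e1 j
    · exact e2
  · intro h
    exact Prod.ext (funext fun j => (h1 _).2 (h _ (Or.inl ⟨j, rfl⟩)))
      ((h1 _).2 (h _ (Or.inr rfl)))

/-- the reflection -/
def RFL_σ (x : (Fin 1 → G) × G) : (Fin 1 → G) × G := (fun j => (x.1 j)⁻¹, x.2⁻¹)

theorem RFL_σσ (x : (Fin 1 → G) × G) : RFL_σ (RFL_σ x) = x := by
  simp [RFL_σ]

theorem RFL_gen_le (x : (Fin 1 → G) × G) :
    Subgroup.closure (RFL_ent (RFL_σ x)) ≤ Subgroup.closure (RFL_ent x) := by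
  rw [Subgroup.closure_le]
  rintro a (⟨j, rfl⟩ | rfl)
  · exact Subgroup.inv_mem _ (Subgroup.subset_closure (Or.inl ⟨j, rfl⟩))
  · exact Subgroup.inv_mem _ (Subgroup.subset_closure (Or.inr rfl))

/-- the configuration -/
def RFL_cfg (G : Type) [Group G] : Cfg 2 G ((Fin 1 → G) × G) where
  act := RFL_act
  gen x := Subgroup.closure (RFL_ent x)
  gen_act g x := by
    rw [RFL_act_apply, RFL_ent_cj, cj, MonoidHom.map_closure]
  fix := RFL_fix
  σ := RFL_σ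
  κ _ := 1
  σ_act g x := by
    show RFL_σ (RFL_cj g x) = RFL_cj g (RFL_σ x)
    simp [RFL_σ, RFL_cj, mul_assoc]
  gen_σ x := by
    refine le_antisymm (RFL_gen_le x) ?_
    conv_lhs => rw [← RFL_σσ x]
    exact RFL_gen_le _
  κ_mem _ := Subgroup.one_mem _
  σ_pow x := by
    rw [map_one]
    exact RFL_σσ x
  κ_σ _ := rfl
  κ_act g _ := by
    rw [mul_one, mul_inv_cancel]

/-- the weight -/
noncomputable def RFL_θ (g₁ g₂ : G → ℂ) (x : (Fin 1 → G) × G) : ℂ :=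
  g₁ x.2 * g₂ (qq x.1 * x.2)⁻¹ * ∏ j, tp 2 (x.1 j)

theorem RFL_qq (z : Fin 1 → G) : qq z = z 0 := by
  simp [qq]

theorem RFL_tp_inv (p : ℕ) (x : G) : tp p x⁻¹ = tp p x := by
  unfold tp
  rw [inv_pow, inv_eq_one]

theorem RFL_tp_conj (p : ℕ) (g x : G) : tp p (g * x * g⁻¹) = tp p x := by
  unfold tp
  rw [conj_pow, conj_eq_one_iff]

end

/-- **RFL**: the reflection. -/
theorem RFL (hLDB : LDB_stmt) (M : Ideal (integralClosure ℤ ℂ)) (hM : Setup 2 M) (G : Type)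
    [Group G] [Finite G] (w ζ : G → ℂ) (hw : ClF M w) (hζ : ClF M ζ) (rw' : ∀ x, w x⁻¹ = w x)
    (rζ : ∀ x, ζ x⁻¹ = ζ x) (h0 : ∀ r s : G, r ^ 2 = 1 → s ^ 2 = 1 → w (r * s) = 0) :
    Cg 2 M G (Sp 2 w ζ 1) 0 := by
  have k1 : ∀ x, IntAt M (RFL_θ w ζ x) := by
    intro x
    unfold RFL_θ
    refine ((hw.int _).mul hM (hζ.int _)).mul hM ?_
    refine IntAt.prod hM _ fun j _ => ?_
    unfold tp
    split_ifs
    · exact IntAt.one hM
    · exact IntAt.zero hM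
  have k2 : ∀ g x, RFL_θ w ζ ((RFL_cfg G).act g x) = RFL_θ w ζ x := by
    intro g x
    show RFL_θ w ζ (RFL_cj g x) = RFL_θ w ζ x
    unfold RFL_θ
    rw [RFL_qq, RFL_qq]
    simp only [RFL_cj, RFL_tp_conj, hw.cls]
    have h1 : (g * x.1 0 * g⁻¹ * (g * x.2 * g⁻¹))⁻¹ = g * (x.1 0 * x.2)⁻¹ * g⁻¹ := by group
    rw [h1, hζ.cls]
  have k3 : ∀ x, RFL_θ w ζ ((RFL_cfg G).σ x) = RFL_θ w ζ x := by
    intro x
    show RFL_θ w ζ (RFL_σ x) = RFL_θ w ζ x
    unfold RFL_θ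
    rw [RFL_qq, RFL_qq]
    simp only [RFL_σ, RFL_tp_inv, rw']
    have h1 : ((x.1 0)⁻¹ * x.2⁻¹)⁻¹ = x.2 * (x.1 0 * x.2) * x.2⁻¹ := by group
    rw [h1, hζ.cls, rζ]
  obtain ⟨u, hu, hu'⟩ := hLDB 2 M hM G ((Fin 1 → G) × G) (RFL_cfg G) (RFL_θ w ζ) k1 k2 k3
  have e1 : ∑ᶠ x : (Fin 1 → G) × G, RFL_θ w ζ x * (W 2 ((RFL_cfg G).gen x) : ℂ) =
      Sp 2 w ζ 1 := rfl
  have e2 : ∑ᶠ z ∈ {z : ((Fin 1 → G) × G) × G | (RFL_cfg G).act z.2 z.1 = (RFL_cfg G).σ z.1 ∧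
      z.2 ^ 2 = (RFL_cfg G).κ z.1},
    RFL_θ w ζ z.1 * (W 2 ((RFL_cfg G).gen z.1 ⊔ Subgroup.zpowers z.2) : ℂ) = 0 := by
    refine finsum_mem_eq_zero_of_forall_eq_zero ?_
    rintro ⟨⟨z, s⟩, h⟩ ⟨h1, h2⟩
    have h3 : h * s * h⁻¹ = s⁻¹ := congrArg (fun y : (Fin 1 → G) × G => y.2) h1
    have h4 : h ^ 2 = 1 := h2
    have hh : h⁻¹ = h := by rw [inv_eq_iff_mul_eq_one, ← sq, h4]
    have h5 : w s = 0 := by
      have h7 : (s * h) ^ 2 = 1 := by
        have h8 : (s * h) ^ 2 = s * (h * s * h⁻¹) := by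
          rw [sq, hh]
          simp only [mul_assoc]
        rw [h8, h3, mul_inv_cancel]
      have h6 := h0 (s * h) h h7 h4
      rwa [mul_assoc, ← sq, h4, mul_one] at h6
    unfold RFL_θ
    simp only [h5, zero_mul]
  rw [e1, e2] at hu'
  refine ⟨(2 : ℕ) * u, InM.mul_right hM (InM.prime_mem hM) hu, ?_⟩
  push_cast at hu' ⊢
  linear_combination hu'

end Pool.Agent.OB
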