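import Pool.Agent.helper22.OB.UP3
import Pool.Agent.helper12.OB.RFL
import Pool.Agent.helper25.OB.ZT5

/-!
# Project ob (MP_baa4d7_al): real blocks, `p = 2`, with the Galois refinement

TARGET (UP4). Let `p = 2`, `B` and `g` real, `omega_B(g)` not in `M`, and suppose that every `b` with `b ^ 4 = g` has a power
`b ^ m`, `m` odd, `m ≡ 1` modulo the order of `g`, which is not conjugate to `b`, or is not a product of two elements `r`, `s` with
`r ^ 2 = s ^ 2 = 1`. Then the alternating sum of the `k(N_G(C), B)` is even.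

PROOF. Split the sphere sum by the property `QP s`: there is an odd `m ≡ 1` modulo the order of `s ^ 4` such that `s` is not conjugate
to `s ^ m`. For the part of `QP` use FXG, for the other part the reflection RFL.
-/

set_option autoImplicit false

namespace Pool.Agent.OB

open Pool.Agent.helper58.DC Pool.Agent.DI Pool.Agent.GR

/-- **FXG**: FXC with a weaker hypothesis on the roots. -/
def FXG_stmt : Prop :=
  ∀ (p a : ℕ) (M : Ideal (integralClosure ℤ ℂ)), Setup p M → ∀ (G : Type) [Group G] [Finite G]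
    (h : G → ℂ) (g : G), (p = 2 ∨ p ∣ orderOf g) → (∀ x y, h (y * x * y⁻¹) = h x) →
    (∀ m : ℕ, m.Coprime (Nat.card G) → (∀ v : G, ¬ p ∣ orderOf v → v ^ m = v) →
      ∀ x, h (x ^ m) = h x) →
    (∀ s, ∃ w, IntAt M w ∧ h s = (pp p (Subgroup.centralizer ({s} : Set G)) : ℂ) * w) →
    (∀ b : G, b ^ (p ^ a) = g → h b ≠ 0 →
      ∃ m : ℕ, m.Coprime p ∧ m ≡ 1 [MOD orderOf g] ∧ ¬ IsConj b (b ^ m)) →
    Cg p M G (∑ᶠ s, ind g (s ^ (p ^ a)) * h s) 0

section

variable {G : Type} [Group G]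

/-- `s` is not conjugate to some power `s ^ m` with `m ≡ 1` modulo the order of `s ^ 4` -/
def QP (s : G) : Prop := ∃ m : ℕ, m.Coprime 2 ∧ m ≡ 1 [MOD orderOf (s ^ 4)] ∧ ¬ IsConj s (s ^ m)

theorem QP_order (y s : G) : orderOf ((y * s * y⁻¹) ^ 4) = orderOf (s ^ 4) := by
  rw [conj_pow]
  exact orderOf_injective (MulAut.conj y).toMonoidHom (MulAut.conj y).injective (s ^ 4)

theorem QP_conj1 {y s : G} (h : QP s) : QP (y * s * y⁻¹) := by
  obtain ⟨m, hm2, hm, hc⟩ := h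
  refine ⟨m, hm2, by rw [QP_order]; exact hm, fun h1 => hc ?_⟩
  have h2 : IsConj s (y * s * y⁻¹) := isConj_iff.2 ⟨y, rfl⟩
  have h3 : IsConj (s ^ m) ((y * s * y⁻¹) ^ m) := isConj_iff.2 ⟨y, by rw [conj_pow]⟩
  exact (h2.trans h1).trans h3.symm

theorem QP_conj (y s : G) : QP (y * s * y⁻¹) ↔ QP s := by
  refine ⟨fun h => ?_, QP_conj1⟩
  have h1 := QP_conj1 (y := y⁻¹) h
  have h2 : y⁻¹ * (y * s * y⁻¹) * y⁻¹⁻¹ = s := by group
  rwa [h2] at h1

theorem QP_pow [Finite G] {k : ℕ} (hk : k.Coprime (Nat.card G)) (s : G) : QP (s ^ k) ↔ QP s := by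
  obtain ⟨t, -, ht⟩ := ZT5_inv G k hk
  have e1 : ∀ x : G, (x ^ k) ^ t = x := fun x => by rw [← pow_mul]; exact ht x
  have ho : orderOf ((s ^ k) ^ 4) = orderOf (s ^ 4) := by
    have h1 : (s ^ k) ^ 4 = (s ^ 4) ^ k := by rw [← pow_mul, ← pow_mul, mul_comm]
    rw [h1]
    exact (Nat.Coprime.coprime_dvd_left (orderOf_dvd_natCard (s ^ 4)) hk.symm).orderOf_pow
  have hc : ∀ m : ℕ, IsConj (s ^ k) ((s ^ k) ^ m) ↔ IsConj s (s ^ m) := by
    intro m
    have h1 : (s ^ k) ^ m = (s ^ m) ^ k := by rw [← pow_mul, ← pow_mul, mul_comm]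
    rw [h1]
    constructor
    · intro h
      have h2 := h.pow t
      rwa [e1, e1] at h2
    · intro h
      exact h.pow k
  unfold QP
  rw [ho]
  simp only [hc]

theorem QP_inv [Finite G] (s : G) : QP s⁻¹ ↔ QP s := by
  have hn : 1 ≤ Nat.card G := Nat.card_pos
  have h1 : (Nat.card G - 1).Coprime (Nat.card G) := by
    have h2 : Nat.Coprime (Nat.card G - 1) (Nat.card G - 1 + 1) := by simp
    rwa [Nat.sub_add_cancel hn] at h2
  have h3 : s⁻¹ = s ^ (Nat.card G - 1) := by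
    rw [inv_eq_iff_mul_eq_one, ← pow_succ', Nat.sub_add_cancel hn, pow_card_eq_one']
  rw [h3]
  exact QP_pow h1 s

end

open Classical in
/-- **UP4**: the core theorem for real blocks. -/
theorem UP4 (hFXG : FXG_stmt) (hLDB : LDB_stmt) (hDBL : DBL_stmt) (hBR2 : BR2_stmt)
    (hFT2 : FT2_stmt) (hZT0 : ZT0_stmt) (hZT1 : ZT1_stmt) (hZT4 : ZT4_stmt) (hC3 : C3_stmt)
    (hTI : TI_stmt) (hHH1 : HH1_stmt) (hHH2 : HH2_stmt) (hHH3 : HH3_stmt)
    (M : Ideal (integralClosure ℤ ℂ)) (h : Setup 2 M) (G : Type) [Group G] [Finite G]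
    (hO : IsOp 2 (⊤ : Subgroup G) ⊥) (χ : G → ℂ) (hχ : χ ∈ Irr G)
    (hr : Induces M (fun x => χ x⁻¹) χ) (g : G) (hg : ¬ InM M (omega χ g))
    (hgr : g⁻¹ ∈ conjugatesOf g)
    (hroot : ∀ b : G, b ^ 4 = g → (∃ m : ℕ, m.Coprime 2 ∧ m ≡ 1 [MOD orderOf g] ∧ ¬ IsConj b (b ^ m)) ∨
      ∀ r s : G, r ^ 2 = 1 → s ^ 2 = 1 → r * s ≠ b) : (2 : ℤ) ∣ aB 2 M χ := by
  have hpr := h.pr
  have : Fact (Nat.Prime 2) := ⟨hpr⟩
  obtain ⟨hz1, hz2, -⟩ := hZT0 2 M h G χ
  have hz : ClF M (zeta M χ) := ⟨hz1, hz2⟩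
  have hi : ClF M (ind g) := UP2_ind_clf h g
  have hze : ClF M (pw 4 (zeta M χ)) := LAD_clf hz 4
  have hir : ∀ x : G, ind g x⁻¹ = ind g x := by
    intro x
    unfold ind
    have h1 : x⁻¹ ∈ conjugatesOf g ↔ x ∈ conjugatesOf g := by
      have h2 : IsConj g g⁻¹ := hgr
      constructor
      · intro h3
        have h4 : IsConj g⁻¹ x⁻¹ := h2.symm.trans h3
        exact (RVZ_conj g x).1 h4
      · intro h3
        have h4 : IsConj g⁻¹ x⁻¹ := (RVZ_conj g x).2 h3
        exact h2.trans h4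
    by_cases hx : x ∈ conjugatesOf g
    · rw [if_pos hx, if_pos (h1.2 hx)]
    · rw [if_neg hx, if_neg fun h3 => hx (h1.1 h3)]
  -- the two parts
  set f₂ : G → ℂ := pw 4 (zeta M χ) with hf₂
  set w' : G → ℂ := fun s => if QP s then 0 else ind g (s ^ 4) with hw'
  set h₁ : G → ℂ := fun s => if QP s then hh 2 f₂ 1 s else 0 with hh₁
  have hHHc := (hHH1 G 2 (pw 4 (ind g)) f₂ 1 hze.cls).2
  have hpart1 : Cg 2 M G (∑ᶠ s, ind g (s ^ 4) * h₁ s) 0 := by
    refine hFXG 2 2 M h G h₁ g (Or.inl rfl) ?_ ?_ ?_ ?_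
    · intro x y
      simp only [hh₁, QP_conj, hHHc]
    · intro m hm hv x
      simp only [hh₁, QP_pow hm]
      rw [hHH3 G 2 hO f₂ hze.cls 1 m hm (UP3_zeta h hZT1 χ 4 m hm hv) x]
    · intro s
      by_cases hq : QP s
      · obtain ⟨v, hv, hv'⟩ := hHH2 2 M h G f₂ hze 1 s
        refine ⟨v, hv, ?_⟩
        simp only [hh₁, if_pos hq]
        exact hv'
      · refine ⟨0, IntAt.zero h, ?_⟩
        simp only [hh₁, if_neg hq, mul_zero]
    · intro b hb hb0
      have hq : QP b := by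
        by_contra hq
        exact hb0 (by simp only [hh₁, if_neg hq])
      obtain ⟨m, hm2, hm, hc⟩ := hq
      have hb4 : b ^ 4 = g := hb
      rw [hb4] at hm
      exact ⟨m, hm2, hm, hc⟩
  have hw'c : ClF M w' := by
    refine ⟨fun x y => ?_, fun x => ?_⟩
    · have h1 : ind g ((y * x * y⁻¹) ^ 4) = ind g (x ^ 4) := by
        rw [conj_pow]
        exact hi.cls _ _
      simp only [hw', QP_conj, h1]
    · simp only [hw']
      split_ifs
      · exact IntAt.zero h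
      · exact hi.int _
  have hpart2 : Cg 2 M G (Sp 2 w' f₂ 1) 0 := by
    refine RFL hLDB M h G _ _ hw'c hze ?_ ?_ ?_
    · intro x
      simp only [hw', QP_inv, inv_pow, hir]
    · intro x
      simp only [hf₂]
      unfold pw
      rw [inv_pow, RVZ hZT4 hr]
    · intro r s hr2 hs2
      simp only [hw']
      split_ifs with hq
      · rfl
      · unfold ind
        rw [if_neg]
        intro h6
        obtain ⟨c, hc⟩ := isConj_iff.1 (show IsConj g ((r * s) ^ 4) from h6)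
        have h8 : c⁻¹ * r * c * (c⁻¹ * s * c) = c⁻¹ * (r * s) * c := by group
        have h9 : (c⁻¹ * (r * s) * c) ^ 4 = c⁻¹ * (r * s) ^ 4 * c := by
          have := conj_pow (i := 4) (a := c⁻¹) (b := r * s)
          rwa [inv_inv] at this
        have hb : (c⁻¹ * (r * s) * c) ^ 4 = g := by
          rw [h9, ← hc]
          group
        rcases hroot _ hb with ⟨m, hm2, hm, hcm⟩ | h10
        · apply hq
          have h11 : QP (c⁻¹ * (r * s) * c) := ⟨m, hm2, by rw [hb]; exact hm, hcm⟩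
          have h12 : c⁻¹ * (r * s) * c = c⁻¹ * (r * s) * c⁻¹⁻¹ := by rw [inv_inv]
          rw [h12, QP_conj] at h11
          exact h11
        · refine h10 (c⁻¹ * r * c) (c⁻¹ * s * c) ?_ ?_ h8
          · have h7 : (c⁻¹ * r * c) ^ 2 = c⁻¹ * r ^ 2 * c := by
              rw [sq, sq]
              group
            rw [h7, hr2, mul_one, inv_mul_cancel]
          · have h7 : (c⁻¹ * s * c) ^ 2 = c⁻¹ * s ^ 2 * c := by
              rw [sq, sq]
              group
            rw [h7, hs2, mul_one, inv_mul_cancel]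
  have hsplit : Sp 2 (pw 4 (ind g)) f₂ 1 = (∑ᶠ s, ind g (s ^ 4) * h₁ s) + Sp 2 w' f₂ 1 := by
    rw [(hHH1 G 2 (pw 4 (ind g)) f₂ 1 hze.cls).1, (hHH1 G 2 w' f₂ 1 hze.cls).1,
      ← finsum_add_distrib (Set.toFinite _) (Set.toFinite _)]
    refine finsum_congr fun s => ?_
    simp only [hh₁, hw']
    unfold pw
    by_cases hq : QP s
    · rw [if_pos hq, if_pos hq]
      ring
    · rw [if_neg hq, if_neg hq]
      ring
  have hsp : Cg 2 M G (Sp 2 (pw 4 (ind g)) f₂ 1) 0 := by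
    obtain ⟨u, hu, hu'⟩ := hpart1
    obtain ⟨v, hv, hv'⟩ := hpart2
    refine ⟨u + v, InM.add h hu hv, ?_⟩
    rw [hsplit, mul_add, ← hu', ← hv']
    ring
  have key : Cg 2 M G 0 (To 2 (ind g) (zeta M χ) 0) := by
    have h2 := hDBL 2 M h G 1 (pw 2 (ind g)) (pw 2 (zeta M χ)) (LAD_clf hi 2) (LAD_clf hz 2)
    have h3 := hBR2 M h G 0 (ind g) (zeta M χ) hi hz
    have h4 := LAD_trans h h2 h3
    rw [LAD_pw, LAD_pw] at h4
    exact LAD_trans h (UP3_symm hsp) h4
  have h6 := LAD_trans h key (hFT2 2 M h G hO χ hχ g)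
  obtain ⟨w, hw, hw''⟩ := h6
  -- the order of G
  obtain ⟨m, hm⟩ : (pp 2 G : ℕ) ∣ Nat.card G := pow_padicValNat_dvd
  have hcard : Nat.card G ≠ 0 := Nat.card_pos.ne'
  have hpp : pp 2 G ≠ 0 := by
    intro h0
    rw [h0, zero_mul] at hm
    exact hcard hm
  have hpm : ¬ 2 ∣ m := by
    rintro ⟨k, rfl⟩
    have h7 : 2 ^ (padicValNat 2 (Nat.card G) + 1) ∣ Nat.card G := by
      refine ⟨k, ?_⟩
      rw [pow_succ]
      conv_lhs => rw [hm]
      unfold pp
      ring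
    exact pow_succ_padicValNat_not_dvd hcard h7
  have hppC : (pp 2 G : ℂ) ≠ 0 := by exact_mod_cast hpp
  have h8 : ((m : ℂ) * (aB 2 M χ : ℂ)) * omega χ g = -w := by
    have h9 : (pp 2 G : ℂ) * (((m : ℂ) * (aB 2 M χ : ℂ)) * omega χ g) = (pp 2 G : ℂ) * (-w) := by
      rw [mul_neg, ← hw'', hm]
      push_cast
      ring
    exact mul_left_cancel₀ hppC h9
  have h10 : InM M (((m : ℂ) * (aB 2 M χ : ℂ)) * omega χ g) := by
    rw [h8]
    exact InM.neg hw
  have hint : ∀ k : ℤ, IntAt M (k : ℂ) := fun k => IntAt.of_isIntegral h (by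
      have := isIntegral_algebraMap (R := ℤ) (A := ℂ) (x := k)
      simpa using this)
  have hom : IntAt M (omega χ g) :=
    IntAt.of_isIntegral h ((hC3 G).2.2.2 ⊤ χ ((hTI G χ).2 hχ) g)
  have h11 : InM M ((m : ℂ) * (aB 2 M χ : ℂ)) := by
    rcases InM.or h ((IntAt.natCast h m).mul h (hint _)) hom h10 with h12 | h12
    · exact h12
    · exact absurd h12 hg
  have h13 : InM M (aB 2 M χ : ℂ) := by
    rcases InM.or h (IntAt.natCast h m) (hint _) h11 with h12 | h12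
    · exact absurd ((InM.natCast h m).1 h12) hpm
    · exact h12
  exact_mod_cast UP2_dvd h h13

end Pool.Agent.OB
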