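import Pool.Agent.helper45.OB.FXC
import Pool.Agent.helper12.OB.UP4

/-!
Row FXG of project ob (MP_baa4d7_al): orbits of powers, with a weaker hypothesis. The proof is that of FXC
(`Pool/Agent/helper45/OB/FXC.lean`, helper45).
-/

set_option autoImplicit false

namespace Pool.Agent.OB

open Pool.Agent.helper58.DC Pool.Agent.DI Pool.Agent.GR

/-- `P` is a `p`-group -/
theorem FXG_pgroup (p A q o n : ℕ) [NeZero n] (hn : n = p ^ A * q) (hp : p.Prime)
    (hq : ¬ p ∣ q) (hpo : p = 2 ∨ p ∣ o) (h1 : q ∣ n) (h2 : o ∣ n) :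
    IsPGroup p (FXC_sub n q h1 ⊓ FXC_sub n o h2 : Subgroup (ZMod n)ˣ) := by
  intro u
  refine ⟨A, ?_⟩
  apply Subtype.ext
  apply Units.ext
  obtain ⟨hu1, hu2⟩ := u.2
  have hu1' : ((u : (ZMod n)ˣ) : ZMod n).val ≡ 1 [MOD q] := hu1
  have hu2' : ((u : (ZMod n)ˣ) : ZMod n).val ≡ 1 [MOD o] := hu2
  have hcu : ((u : (ZMod n)ˣ) : ZMod n).val.Coprime n := ZMod.val_coe_unit_coprime _
  set k := ((u : (ZMod n)ˣ) : ZMod n).val with hk
  have hcast : ((u : (ZMod n)ˣ) : ZMod n) = (k : ZMod n) := by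
    rw [hk, ZMod.natCast_zmod_val]
  show ((u ^ (p ^ A) : (FXC_sub n q h1 ⊓ FXC_sub n o h2 : Subgroup (ZMod n)ˣ)) : (ZMod n)ˣ).val = 1
  rw [SubmonoidClass.coe_pow, Units.val_pow_eq_pow_val, hcast]
  have hkA : k ^ (p ^ A) ≡ 1 [MOD p ^ A] := by
    rcases Nat.eq_zero_or_pos A with hA | hA
    · rw [hA, pow_zero]
      exact Nat.modEq_one
    have hkp : k ≡ 1 [MOD p] := by
      rcases hpo with h | h
      · have h3 : Nat.Coprime k 2 := by
          refine Nat.Coprime.coprime_dvd_right ?_ hcu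
          rw [hn, h]
          exact Dvd.dvd.mul_right (dvd_pow_self 2 hA.ne') q
        rw [h]
        exact Nat.odd_iff.1 ((Nat.coprime_two_right).1 h3)
      · exact hu2'.of_dvd h
    have hd : (p : ℤ) ∣ (k : ℤ) - 1 := by
      have := (Nat.modEq_iff_dvd.1 hkp.symm)
      simpa using this
    have hd2 := dvd_sub_pow_of_dvd_sub hd A
    rw [one_pow] at hd2
    have hd3 : ((p ^ A : ℕ) : ℤ) ∣ ((k ^ (p ^ A) : ℕ) : ℤ) - ((1 : ℕ) : ℤ) := by
      push_cast
      exact (pow_dvd_pow _ (Nat.le_succ A)).trans hd2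
    exact (Nat.modEq_iff_dvd.2 hd3).symm
  have hkq : k ^ (p ^ A) ≡ 1 [MOD q] := by
    have := hu1'.pow (p ^ A)
    rwa [one_pow] at this
  have hcop : (p ^ A).Coprime q :=
    Nat.Coprime.pow_left A ((Nat.Prime.coprime_iff_not_dvd hp).2 hq)
  have hkn : k ^ (p ^ A) ≡ 1 [MOD n] := by
    rw [hn]
    exact (Nat.modEq_and_modEq_iff_modEq_mul hcop).1 ⟨hkA, hkq⟩
  have := (ZMod.natCast_eq_natCast_iff _ _ _).2 hkn
  push_cast at this
  exact this

/-- **FXG** -/
theorem FXG (hODV : ODV_stmt) : FXG_stmt := by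
  intro p a M hS G _ _ h g hpo hcl hpow hdiv H
  classical
  have hp : p.Prime := hS.pr
  have : Fact p.Prime := ⟨hp⟩
  have hn0 : Nat.card G ≠ 0 := Nat.card_pos.ne'
  have : NeZero (Nat.card G) := ⟨hn0⟩
  have : Fintype (ZMod (Nat.card G)) := ZMod.fintype _
  have : Finite (ZMod (Nat.card G))ˣ := inferInstance
  obtain ⟨A, q, hq, hn⟩ := Nat.exists_eq_pow_mul_and_not_dvd hn0 p hp.ne_one
  have hqn : q ∣ Nat.card G := ⟨p ^ A, by rw [hn, mul_comm]⟩
  have hon : orderOf g ∣ Nat.card G := orderOf_dvd_natCard g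
  -- the sum over `X`
  have hsum : ∑ᶠ s, ind g (s ^ (p ^ a)) * h s = ∑ᶠ x : FXC_X g (p ^ a), h x := by
    rw [finsum_set_coe_eq_finsum_mem (FXC_X g (p ^ a)), finsum_mem_def]
    apply finsum_congr
    intro s
    unfold ind
    by_cases hs : s ∈ FXC_X g (p ^ a)
    · have hs' : s ^ p ^ a ∈ conjugatesOf g := hs
      rw [Set.indicator_of_mem hs, if_pos hs', one_mul]
    · have hs' : ¬ s ^ p ^ a ∈ conjugatesOf g := hs
      rw [Set.indicator_of_notMem hs, if_neg hs', zero_mul]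
  rw [hsum]
  rcases isEmpty_or_nonempty (FXC_X g (p ^ a)) with hX | ⟨⟨s₀, hs₀⟩⟩
  · refine ⟨0, InM.zero hS, ?_⟩
    rw [finsum_of_isEmpty]
    simp
  set P : Subgroup (ZMod (Nat.card G))ˣ :=
    FXC_sub (Nat.card G) q hqn ⊓ FXC_sub (Nat.card G) (orderOf g) hon with hPdef
  have hPg : ∀ u ∈ P, FXC_pu u g = g := by
    intro u hu
    have hu2 : (u : ZMod (Nat.card G)).val ≡ 1 [MOD orderOf g] := hu.2
    have := (pow_eq_pow_iff_modEq (x := g) (n := (u : ZMod (Nat.card G)).val) (m := 1)).2 hu2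
    rw [pow_one] at this
    exact this
  have hPp : IsPGroup p P := FXG_pgroup p A q (orderOf g) (Nat.card G) hn hp hq hpo hqn hon
  obtain ⟨k, hk⟩ := (IsPGroup.iff_card (p := p) (G := P)).1 hPp
  -- invariance of `h`
  have hPh : ∀ u ∈ P, ∀ x, h (FXC_pu u x) = h x := by
    intro u hu x
    refine hpow _ (ZMod.val_coe_unit_coprime u) ?_ x
    intro v hv
    have hu1 : (u : ZMod (Nat.card G)).val ≡ 1 [MOD q] := hu.1
    have hvq : orderOf v ∣ q := by
      have h1 : orderOf v ∣ p ^ A * q := by rw [← hn]; exact orderOf_dvd_natCard v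
      refine Nat.Coprime.dvd_of_dvd_mul_left ?_ h1
      exact (Nat.Coprime.pow_left A ((Nat.Prime.coprime_iff_not_dvd hp).2 hv)).symm
    have := (pow_eq_pow_iff_modEq (x := v) (n := (u : ZMod (Nat.card G)).val) (m := 1)).2
      (hu1.of_dvd hvq)
    rwa [pow_one] at this
  -- the range of the projection is not everything
  have hrange : ∀ s ∈ FXC_X g (p ^ a), h s ≠ 0 → (FXC_pr P s).range ≠ ⊤ := by
    intro s hs hs0 htop
    obtain ⟨c, hc⟩ := (FXC_X_iff g (p ^ a) s).1 hs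
    set b : G := c⁻¹ * s * c with hb
    have hbs : s = c * b * c⁻¹ := by rw [hb]; group
    have hbg : b ^ (p ^ a) = g := by
      have h1 : (c * b * c⁻¹) ^ (p ^ a) = c * b ^ (p ^ a) * c⁻¹ := conj_pow
      rw [← hbs, ← hc] at h1
      have h2 := mul_right_cancel h1
      exact (mul_left_cancel h2).symm
    have hb0 : h b ≠ 0 := by
      rw [hbs, hcl] at hs0
      exact hs0
    obtain ⟨m, hmp, hm, hconj⟩ := H b hbg hb0
    have hbn : orderOf b ∣ p ^ A * q := by rw [← hn]; exact orderOf_dvd_natCard b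
    have hbo : orderOf b ∣ p ^ a * orderOf g := by
      apply orderOf_dvd_of_pow_eq_one
      rw [pow_mul, hbg, pow_orderOf_eq_one]
    obtain ⟨m₁, hm1, hm2, hm3⟩ := FXC_exp p a A q m (orderOf b) (orderOf g) hp hq hbn hbo hm
    have hgb : orderOf g ∣ orderOf b := by rw [← hbg]; exact orderOf_pow_dvd _
    have hm1o : m₁ ≡ 1 [MOD orderOf g] := (hm3.of_dvd hgb).trans hm
    have hcop : m₁.Coprime (Nat.card G) := by
      rw [hn]
      apply Nat.Coprime.mul_right
      · have h2 : Nat.gcd m₁ (p ^ A) = Nat.gcd m (p ^ A) := hm1.gcd_eq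
        show Nat.gcd m₁ (p ^ A) = 1
        rw [h2]
        exact Nat.Coprime.pow_right A hmp
      · have h2 : Nat.gcd m₁ q = Nat.gcd 1 q := hm2.gcd_eq
        show Nat.gcd m₁ q = 1
        rw [h2, Nat.gcd_one_left]
    set u : (ZMod (Nat.card G))ˣ := ZMod.unitOfCoprime m₁ hcop with hu
    have huv : (u : ZMod (Nat.card G)).val = m₁ % Nat.card G := by
      rw [hu, ZMod.coe_unitOfCoprime, ZMod.val_natCast]
    have huP : u ∈ P := by
      constructor
      · show (u : ZMod (Nat.card G)).val ≡ 1 [MOD q]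
        rw [huv]
        exact ((Nat.mod_modEq _ _).of_dvd hqn).trans hm2
      · show (u : ZMod (Nat.card G)).val ≡ 1 [MOD orderOf g]
        rw [huv]
        exact ((Nat.mod_modEq _ _).of_dvd hon).trans hm1o
    have hmem : (⟨u, huP⟩ : P) ∈ (FXC_pr P s).range := by rw [htop]; exact Subgroup.mem_top _
    obtain ⟨y, hy⟩ := hmem
    have hy2 : (y.1.2 : P) = ⟨u, huP⟩ := hy
    have hy3 := (FXC_mem_st P s y.1).1 y.2
    rw [hy2] at hy3
    have hpu : ∀ t : G, FXC_pu u t = t ^ m₁ := by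
      intro t
      unfold FXC_pu
      rw [huv, pow_mod_natCard]
    have hy4 : y.1.1 * s ^ m₁ * (y.1.1)⁻¹ = s := by
      rw [← hpu]
      exact hy3
    apply hconj
    have hbm : b ^ m = b ^ m₁ := ((pow_eq_pow_iff_modEq (x := b)).2 hm3).symm
    rw [hbm]
    apply IsConj.symm
    rw [isConj_iff]
    refine ⟨c⁻¹ * y.1.1 * c, ?_⟩
    have h7 : s ^ m₁ = c * b ^ m₁ * c⁻¹ := by
      rw [hbs]
      exact conj_pow
    have h8 : y.1.1 * (c * b ^ m₁ * c⁻¹) * (y.1.1)⁻¹ = s := by rw [← h7]; exact hy4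
    calc c⁻¹ * y.1.1 * c * b ^ m₁ * (c⁻¹ * y.1.1 * c)⁻¹
        = c⁻¹ * (y.1.1 * (c * b ^ m₁ * c⁻¹) * (y.1.1)⁻¹) * c := by group
      _ = b := by rw [h8, hb]
  -- sizes
  by_cases hall : ∀ s ∈ FXC_X g (p ^ a), h s = 0
  · refine ⟨0, InM.zero hS, ?_⟩
    have h0 : ∀ x : FXC_X g (p ^ a), h x = 0 := fun x => hall x.1 x.2
    rw [finsum_congr h0, finsum_zero, sub_zero, mul_zero]
  obtain ⟨s₁, hs₁, hs₁0⟩ : ∃ s ∈ FXC_X g (p ^ a), h s ≠ 0 := by
    by_contra hcon
    apply hall
    intro s hs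
    by_contra h0
    exact hcon ⟨s, hs, h0⟩
  have hkpos : 1 ≤ k := by
    rcases Nat.eq_zero_or_pos k with h0 | h0
    · exfalso
      rw [h0, pow_zero] at hk
      apply hrange s₁ hs₁ hs₁0
      have hsub : ∀ x : P, x = 1 := by
        have := Nat.card_eq_one_iff_unique.1 hk
        have := this.1
        intro x
        exact Subsingleton.elim _ _
      rw [eq_top_iff]
      intro x _
      rw [hsub x]
      exact Subgroup.one_mem _
    · exact h0
  have hstab : ∀ s ∈ FXC_X g (p ^ a), h s ≠ 0 → ∃ j : ℕ, j + 1 ≤ k ∧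
      Nat.card (FXC_st P s) = p ^ j * Nat.card (Subgroup.centralizer ({s} : Set G)) := by
    intro s hs hs0
    have hRp : IsPGroup p (FXC_pr P s).range := hPp.to_subgroup _
    obtain ⟨j, hj⟩ := (IsPGroup.iff_card (p := p) (G := (FXC_pr P s).range)).1 hRp
    refine ⟨j, ?_, ?_⟩
    · have hd : p ^ j ∣ p ^ k := by
        rw [← hj, ← hk]
        exact Subgroup.card_subgroup_dvd_card _
      have hle : j ≤ k := (Nat.pow_dvd_pow_iff_le_right hp.one_lt).1 hd
      rcases Nat.lt_or_ge j k with h1 | h1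
      · exact h1
      · exfalso
        have h2 : j = k := le_antisymm hle h1
        apply hrange s hs hs0
        apply Subgroup.eq_top_of_card_eq
        rw [hj, hk, h2]
    · rw [FXC_card_st, hj]
  -- the subgroup of the values
  let I : AddSubgroup ℂ :=
    { carrier := {w | IntAt M ((p : ℂ) ^ (k - 1) * w)}
      zero_mem' := by
        show IntAt M ((p : ℂ) ^ (k - 1) * 0)
        rw [mul_zero]
        exact IntAt.zero hS
      add_mem' := by
        intro x y hx hy
        show IntAt M ((p : ℂ) ^ (k - 1) * (x + y))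
        rw [mul_add]
        exact IntAt.add hS hx hy
      neg_mem' := by
        intro x hx
        show IntAt M ((p : ℂ) ^ (k - 1) * (-x))
        rw [mul_neg]
        exact IntAt.neg hx }
  have hpC : (p : ℂ) ≠ 0 := hS.p_ne
  obtain ⟨w, hwI, hw⟩ := hODV p hp (G × P) (FXC_X g (p ^ a)) (FXC_act g (p ^ a) P hPg) I
    (fun x => h x) (by
      intro n x
      show h ((FXC_act g (p ^ a) P hPg n x : FXC_X g (p ^ a)) : G) = h x
      rw [FXC_act_apply, hcl]
      exact hPh n.2 n.2.2 x) (by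
      intro x
      by_cases hx0 : h x = 0
      · exact ⟨0, I.zero_mem, by rw [hx0, mul_zero]⟩
      obtain ⟨j, hjk, hj⟩ := hstab x.1 x.2 hx0
      obtain ⟨w₀, hw₀, hhx⟩ := hdiv x.1
      have hcard : Nat.card {n : G × P // FXC_act g (p ^ a) P hPg n x = x} =
          Nat.card (FXC_st P x.1) := by
        apply Nat.card_congr
        refine Equiv.subtypeEquivRight ?_
        intro n
        rw [FXC_mem_st, ← FXC_act_apply g (p ^ a) P hPg n x]
        exact Subtype.ext_iff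
      have hcpos : Nat.card (Subgroup.centralizer ({x.1} : Set G)) ≠ 0 := Nat.card_pos.ne'
      have hpp : pp p {n : G × P // FXC_act g (p ^ a) P hPg n x = x} =
          p ^ j * pp p (Subgroup.centralizer ({x.1} : Set G)) := by
        unfold pp
        rw [hcard, hj, padicValNat.mul (pow_ne_zero _ hp.ne_zero) hcpos, padicValNat.prime_pow,
          pow_add]
      refine ⟨w₀ / (p : ℂ) ^ j, ?_, ?_⟩
      · show IntAt M ((p : ℂ) ^ (k - 1) * (w₀ / (p : ℂ) ^ j))
        have e : (p : ℂ) ^ (k - 1) * (w₀ / (p : ℂ) ^ j) = ((p ^ (k - 1 - j) : ℕ) : ℂ) * w₀ := by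
          have e1 : (p : ℂ) ^ (k - 1) = (p : ℂ) ^ (k - 1 - j) * (p : ℂ) ^ j := by
            rw [← pow_add]
            congr 1
            omega
          push_cast
          rw [e1]
          field_simp
        rw [e]
        exact IntAt.mul hS (IntAt.natCast hS _) hw₀
      · show h x = _
        rw [hhx, hpp]
        push_cast
        field_simp)
  refine ⟨(p : ℂ) * ((p : ℂ) ^ (k - 1) * w), InM.mul_right hS (InM.prime_mem hS) hwI, ?_⟩
  rw [sub_zero]
  have hppN : pp p (G × P) = pp p G * p ^ k := by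
    unfold pp
    rw [Nat.card_prod, hk, padicValNat.mul hn0 (pow_ne_zero _ hp.ne_zero), padicValNat.prime_pow,
      pow_add]
  have hw' : ∑ᶠ x : FXC_X g (p ^ a), h x = (pp p (G × P) : ℂ) * w := hw
  rw [hw', hppN]
  push_cast
  have e2 : (p : ℂ) ^ k = (p : ℂ) * (p : ℂ) ^ (k - 1) := by
    rw [← pow_succ']
    congr 1
    omega
  rw [e2]
  ring

end Pool.Agent.OB
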