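import Pool.Agent.helper12.OB.PRB

/-!
# Project ob (MP_baa4d7_al): the principal 2-block, local form

Let `S` be a Sylow 2-subgroup of `G` and `z ∈ Z(S)`, `z ^ 2 = 1`, such that every `y ∈ S` with `y ^ 4 = z` has an odd power
which is not `S`-conjugate to `y` or is not a product of two elements `r, s ∈ S` with `r ^ 2 = s ^ 2 = 1`. Then every `b ∈ G` with
`b ^ 4 = z` has an odd power which is not conjugate to `b`, or is not a product of two such elements of `G`.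
-/

set_option autoImplicit false

namespace Pool.Agent.OB

open Pool.Agent.helper58.DC Pool.Agent.DI Pool.Agent.GR
open scoped Pointwise

section

variable {G : Type} [Group G]

theorem PRC_pow (t b : G) (m : ℕ) (h : t * b * t⁻¹ = b ^ m) (j : ℕ) :
    t ^ j * b * (t ^ j)⁻¹ = b ^ (m ^ j) := by
  induction j with
  | zero => simp
  | succ j ih =>
    have h1 : t ^ (j + 1) * b * (t ^ (j + 1))⁻¹ = t ^ j * (t * b * t⁻¹) * (t ^ j)⁻¹ := by
      rw [pow_succ]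
      group
    rw [h1, h, ← conj_pow, ih, ← pow_mul, pow_succ]

/-- odd powers of an odd number modulo `8` -/
theorem PRC_mod (m o : ℕ) (hm : Odd m) (ho : Odd o) : m ^ o ≡ m [MOD 8] := by
  obtain ⟨i, rfl⟩ := ho
  have h1 : m ^ 2 ≡ 1 [MOD 8] := by
    have h2 : m % 8 = 1 ∨ m % 8 = 3 ∨ m % 8 = 5 ∨ m % 8 = 7 := by
      obtain ⟨j, rfl⟩ := hm
      omega
    unfold Nat.ModEq
    rw [Nat.pow_mod]
    rcases h2 with h | h | h | h <;> rw [h]
  have h3 : m ^ (2 * i + 1) = (m ^ 2) ^ i * m := by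
    rw [pow_succ, pow_mul]
  rw [h3]
  have h4 := (h1.pow i).mul_right m
  rwa [one_pow, one_mul] at h4

end

/-- **PRC** -/
theorem PRC (G : Type) [Group G] [Finite G] (S : Sylow 2 G) (z : G)
    (hzc : ∀ d ∈ (S : Subgroup G), z * d = d * z) (hz2 : z ^ 2 = 1)
    (hy : ∀ y ∈ (S : Subgroup G), y ^ 4 = z →
      (∃ m : ℕ, Odd m ∧ ∀ d ∈ (S : Subgroup G), d * y * d⁻¹ ≠ y ^ m) ∨
      ∀ r ∈ (S : Subgroup G), ∀ s ∈ (S : Subgroup G), r ^ 2 = 1 → s ^ 2 = 1 → r * s ≠ y) :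
    ∀ b : G, b ^ 4 = z →
      (∃ m : ℕ, m.Coprime 2 ∧ m ≡ 1 [MOD orderOf z] ∧ ¬ IsConj b (b ^ m)) ∨
      ∀ r s : G, r ^ 2 = 1 → s ^ 2 = 1 → r * s ≠ b := by
  intro b hb
  by_contra hcon
  push Not at hcon
  obtain ⟨hrat, r, s, hr, hs, hrs⟩ := hcon
  have ho2 : orderOf z ∣ 2 := orderOf_dvd_of_pow_eq_one hz2
  have hrat' : ∀ m : ℕ, Odd m → IsConj b (b ^ m) := by
    intro m hm
    refine hrat m (Nat.coprime_two_right.2 hm) ?_
    exact (show m ≡ 1 [MOD 2] from Nat.odd_iff.1 hm).of_dvd ho2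
  have ir : r⁻¹ = r := by rw [inv_eq_iff_mul_eq_one, ← sq, hr]
  have is' : s⁻¹ = s := by rw [inv_eq_iff_mul_eq_one, ← sq, hs]
  have hb8 : b ^ 8 = 1 := by
    have : b ^ 8 = (b ^ 4) ^ 2 := by rw [← pow_mul]
    rw [this, hb, hz2]
  have hob : orderOf b ∣ 8 := orderOf_dvd_of_pow_eq_one hb8
  have hbmod : ∀ i j : ℕ, i ≡ j [MOD 8] → b ^ i = b ^ j := fun i j h =>
    (pow_eq_pow_iff_modEq (x := b)).2 (h.of_dvd hob)
  have hzm : ∀ m : ℕ, Odd m → z ^ m = z := by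
    intro m hm
    have h1 := (pow_eq_pow_iff_modEq (x := z) (n := m) (m := 1)).2
      ((show m ≡ 1 [MOD 2] from Nat.odd_iff.1 hm).of_dvd ho2)
    rwa [pow_one] at h1
  -- the groups
  set C : Subgroup G := Subgroup.centralizer ({z} : Set G) with hCdef
  have hCm : ∀ t, t ∈ C ↔ t * z = z * t := fun t => Subgroup.mem_centralizer_singleton_iff
  have hSC : (S : Subgroup G) ≤ C := fun d hd => (hCm d).2 (hzc d hd).symm
  let N : Subgroup G :=
    { carrier := {t | t ∈ C ∧ (∃ m : ℕ, t * b * t⁻¹ = b ^ m) ∧ ∃ m : ℕ, t⁻¹ * b * t = b ^ m}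
      mul_mem' := by
        rintro t u ⟨ht, ⟨m, hm⟩, ⟨m', hm'⟩⟩ ⟨hu, ⟨n, hn⟩, ⟨n', hn'⟩⟩
        refine ⟨C.mul_mem ht hu, ⟨m * n, ?_⟩, ⟨n' * m', ?_⟩⟩
        · have : t * u * b * (t * u)⁻¹ = t * (u * b * u⁻¹) * t⁻¹ := by group
          rw [this, hn, ← conj_pow, hm, ← pow_mul]
        · have : (t * u)⁻¹ * b * (t * u) = u⁻¹ * (t⁻¹ * b * t) * u := by group
          have h2 : ∀ j : ℕ, u⁻¹ * b ^ j * u = (u⁻¹ * b * u) ^ j := by
            intro j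
            have := conj_pow (i := j) (a := u⁻¹) (b := b)
            rw [inv_inv] at this
            exact this.symm
          rw [this, hm', h2, hn', ← pow_mul]
      one_mem' := ⟨C.one_mem, ⟨1, by simp⟩, ⟨1, by simp⟩⟩
      inv_mem' := by
        rintro t ⟨ht, ⟨m, hm⟩, ⟨m', hm'⟩⟩
        refine ⟨C.inv_mem ht, ⟨m', ?_⟩, ⟨m, ?_⟩⟩
        · rw [inv_inv]; exact hm'
        · rw [inv_inv]; exact hm }
  have hNC : N ≤ C := fun t ht => ht.1
  have hNmem : ∀ t ∈ C, ∀ m : ℕ, t * b * t⁻¹ = b ^ m → t ∈ N := by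
    intro t ht m h
    refine ⟨ht, ⟨m, h⟩, ⟨m ^ (orderOf t - 1), ?_⟩⟩
    have h1 := PRC_pow t b m h (orderOf t - 1)
    have h2 : t ^ (orderOf t - 1) = t⁻¹ := by
      have h3 : t ^ (orderOf t - 1) * t = 1 := by
        rw [← pow_succ, Nat.sub_add_cancel (orderOf_pos t), pow_orderOf_eq_one]
      exact eq_inv_of_mul_eq_one_left h3
    rw [h2, inv_inv] at h1
    exact h1
  have hbr : r * b * r⁻¹ = b⁻¹ := by
    rw [← hrs, mul_inv_rev, ir, is', ← mul_assoc, ← sq, hr, one_mul]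
  have hbs : s * b * s⁻¹ = b⁻¹ := by
    rw [← hrs, mul_inv_rev, ir, is', mul_assoc, mul_assoc, ← sq, hs, mul_one]
  have hbinv : b⁻¹ = b ^ 7 := by
    rw [inv_eq_iff_mul_eq_one, ← pow_succ', hb8]
  have hzC : ∀ t : G, t * b * t⁻¹ = b⁻¹ → t ∈ C := by
    intro t ht
    rw [hCm]
    have h1 : t * z * t⁻¹ = z := by
      rw [← hb, ← conj_pow, ht, inv_pow, hb]
      rw [inv_eq_iff_mul_eq_one, ← sq, hz2]
    exact mul_inv_eq_iff_eq_mul.1 h1
  have hrN : r ∈ N := hNmem r (hzC r hbr) 7 (by rw [hbr, hbinv])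
  have hsN : s ∈ N := hNmem s (hzC s hbs) 7 (by rw [hbs, hbinv])
  have hH2 : IsPGroup 2 (Subgroup.closure ({r, s} : Set G)) := by
    refine PRB_two r s hr hs ?_
    rw [hrs, hb, hz2]
  have hHN : Subgroup.closure ({r, s} : Set G) ≤ N := by
    rw [Subgroup.closure_le]
    rintro x (rfl | rfl)
    · exact hrN
    · exact hsN
  -- the Sylow subgroup of `N`
  obtain ⟨P, hP⟩ := (hH2.of_equiv (Subgroup.subgroupOfEquivOfLe hHN).symm).exists_le_sylow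
  set Q : Subgroup G := (P : Subgroup N).map N.subtype with hQdef
  have hQN : Q ≤ N := Subgroup.map_subtype_le _
  have hQ2 : IsPGroup 2 Q := P.2.map _
  have hHQ : ∀ x ∈ Subgroup.closure ({r, s} : Set G), x ∈ Q := by
    intro x hx
    refine ⟨⟨x, hHN hx⟩, hP (Subgroup.mem_subgroupOf.2 hx), rfl⟩
  have hconjQ : ∀ t ∈ N, (∃ k : ℕ, t ^ 2 ^ k = 1) → ∃ n ∈ N, n * t * n⁻¹ ∈ Q := by
    intro t ht hk
    have h1 : IsPGroup 2 (Subgroup.zpowers (⟨t, ht⟩ : N)) := by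
      obtain ⟨k, hk⟩ := hk
      intro w
      refine ⟨k, ?_⟩
      obtain ⟨w, hw⟩ := w
      obtain ⟨i, hi⟩ := Subgroup.mem_zpowers_iff.1 hw
      apply Subtype.ext
      show w ^ 2 ^ k = 1
      have h2 : (⟨t, ht⟩ : N) ^ 2 ^ k = 1 := Subtype.ext hk
      rw [← hi, ← zpow_natCast, ← zpow_mul, mul_comm, zpow_mul, zpow_natCast, h2, one_zpow]
    obtain ⟨P', hP'⟩ := h1.exists_le_sylow
    obtain ⟨c, hc⟩ := MulAction.exists_smul_eq N P' P
    refine ⟨c, c.2, ?_⟩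
    have h2 : (⟨t, ht⟩ : N) ∈ P' := hP' (Subgroup.mem_zpowers _)
    have h3 : MulAut.conj c • (⟨t, ht⟩ : N) ∈ MulAut.conj c • (P' : Subgroup N) :=
      Subgroup.smul_mem_pointwise_smul _ _ _ h2
    have h4 : MulAut.conj c • (P' : Subgroup N) = P := by
      rw [← Sylow.coe_subgroup_smul, hc]
    rw [h4, MulAut.smul_def, MulAut.conj_apply] at h3
    exact ⟨_, h3, rfl⟩
  have hQact : ∀ m : ℕ, Odd m → ∃ q ∈ Q, q * b * q⁻¹ = b ^ m := by
    intro m hm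
    obtain ⟨t, ht⟩ := isConj_iff.1 (hrat' m hm)
    obtain ⟨k, o, ho, hN⟩ := Nat.exists_eq_pow_mul_and_not_dvd (Nat.card_pos (α := G)).ne' 2
      (by norm_num)
    have hoo : Odd o := by
      rw [← Nat.not_even_iff_odd, even_iff_two_dvd]
      exact ho
    have htC : t ∈ C := by
      rw [hCm]
      have h1 : t * z * t⁻¹ = z := by
        rw [← hb, ← conj_pow, ht, ← pow_mul, mul_comm, pow_mul, hb, hzm m hm]
      exact mul_inv_eq_iff_eq_mul.1 h1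
    have htN : t ∈ N := hNmem t htC m ht
    have ht' : t ^ o * b * (t ^ o)⁻¹ = b ^ m := by
      rw [PRC_pow t b m ht o]
      exact hbmod _ _ (PRC_mod m o hm hoo)
    obtain ⟨n, hn, hq⟩ := hconjQ (t ^ o) (N.pow_mem htN o) ⟨k, by
      rw [← pow_mul, mul_comm, ← hN, pow_card_eq_one']⟩
    obtain ⟨-, -, ⟨v, hv⟩⟩ := hn
    refine ⟨_, hq, ?_⟩
    have h1 : n * t ^ o * n⁻¹ * b * (n * t ^ o * n⁻¹)⁻¹ =
        n * (t ^ o * (n⁻¹ * b * n) * (t ^ o)⁻¹) * n⁻¹ := by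
      group
    have h2 : n * b ^ v * n⁻¹ = b := by
      rw [← hv]
      group
    rw [h1, hv, ← conj_pow, ht', ← pow_mul, mul_comm, pow_mul, ← conj_pow, h2]
  -- conjugation into `S`
  obtain ⟨c, hc, hcS⟩ := PRB_syl S C Q hSC (hQN.trans hNC) hQ2
  have hcz : c * z * c⁻¹ = z := mul_inv_eq_iff_eq_mul.2 ((hCm c).1 hc)
  have hrQ : r ∈ Q := hHQ r (Subgroup.subset_closure (Or.inl rfl))
  have hsQ : s ∈ Q := hHQ s (Subgroup.subset_closure (Or.inr rfl))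
  have hbQ : b ∈ Q := by
    rw [← hrs]
    exact Q.mul_mem hrQ hsQ
  rcases hy (c * b * c⁻¹) (hcS b hbQ) (by rw [conj_pow, hb, hcz]) with ⟨m, hm, hmd⟩ | h1
  · obtain ⟨q, hq, hqb⟩ := hQact m hm
    apply hmd (c * q * c⁻¹) (hcS q hq)
    have h1 : c * q * c⁻¹ * (c * b * c⁻¹) * (c * q * c⁻¹)⁻¹ = c * (q * b * q⁻¹) * c⁻¹ := by
      group
    rw [h1, hqb, ← conj_pow]
  · refine h1 (c * r * c⁻¹) (hcS r hrQ) (c * s * c⁻¹) (hcS s hsQ) ?_ ?_ ?_
    · rw [conj_pow, hr, mul_one, mul_inv_cancel]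
    · rw [conj_pow, hs, mul_one, mul_inv_cancel]
    · rw [← hrs]
      group

end Pool.Agent.OB
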