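import Pool.Agent.helper22.OB.AllG
import Pool.Agent.helper12.OB.FXG
import Pool.Agent.helper12.OB.PRC
import Pool.Agent.helper12.OB.DefsH

/-!
# Project ob (MP_baa4d7_al): the final theorem with the Galois refinement and the real blocks
-/

set_option autoImplicit false

namespace Pool.Agent.OB

open Pool.Agent.helper58.DC Pool.Agent.DI Pool.Agent.GR Pool.Agent.OB.AllU Pool.Agent.OB.AllG

theorem FinH_nonVan {p : ℕ} {M : Ideal (integralClosure ℤ ℂ)} (hS : Setup p M) {G : Type} [Group G]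
    [Finite G] {χ : G → ℂ} (hχ : χ ∈ Irr G) (g : G) :
    Pool.Agent.M23h.NonVan M χ g ↔ ¬ InM M (omega χ g) :=
  Fin_nonVan hS hχ g

theorem FinH_defAt {p : ℕ} {M : Ideal (integralClosure ℤ ℂ)} (hS : Setup p M) {G : Type} [Group G]
    [Finite G] {χ : G → ℂ} (hχ : χ ∈ Irr G) {D : Subgroup G}
    (hD : Pool.Agent.M23h.DefectGroup p M χ D) : ∃ x : G, DefAt p M χ D x :=
  Fin_defAt hS hχ hD

theorem FinH_root {G : Type} [Group G] {k : ℕ} {b : G}
    (h : ¬ Pool.Agent.M23h.PowerConj ⊤ k b) :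
    ∃ m : ℕ, m.Coprime (orderOf b) ∧ m ≡ 1 [MOD k] ∧ ¬ IsConj b (b ^ m) := by
  unfold Pool.Agent.M23h.PowerConj at h
  push Not at h
  obtain ⟨m, hmc, hm, h2⟩ := h
  refine ⟨m, hmc, hm, fun h3 => ?_⟩
  obtain ⟨c, hc⟩ := isConj_iff.1 h3
  exact h2 c (Subgroup.mem_top c) hc

theorem FinH_root' {G : Type} [Group G] {D : Subgroup G} {k : ℕ} {y : G}
    (h : ¬ Pool.Agent.M23h.PowerConj D k y) :
    ∃ m : ℕ, m.Coprime (orderOf y) ∧ m ≡ 1 [MOD k] ∧ ∀ d ∈ D, d * y * d⁻¹ ≠ y ^ m := by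
  unfold Pool.Agent.M23h.PowerConj at h
  push Not at h
  obtain ⟨m, hmc, hm, h2⟩ := h
  exact ⟨m, hmc, hm, h2⟩

/-- an element of odd order is a power of its fourth power -/
theorem FinH_odd {G : Type} [Group G] [Finite G] {b g : G} (hb : b ^ 4 = g) (m : ℕ)
    (hm : m ≡ 1 [MOD orderOf g]) (hc : ¬ IsConj b (b ^ m)) (hmc : m.Coprime (orderOf b)) :
    m.Coprime 2 := by
  by_cases ho : 2 ∣ orderOf b
  · exact Nat.Coprime.coprime_dvd_right ho hmc
  · exfalso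
    have hcop : (4 : ℕ).Coprime (orderOf b) := by
      have h1 : Nat.Coprime 2 (orderOf b) := (Nat.Prime.coprime_iff_not_dvd Nat.prime_two).2 ho
      have h2 : Nat.Coprime (2 ^ 2) (orderOf b) := Nat.Coprime.pow_left 2 h1
      exact h2
    have h3 : orderOf (b ^ 4) = orderOf b := hcop.symm.orderOf_pow
    rw [hb] at h3
    rw [h3] at hm
    have h4 : b ^ m = b := by
      have := (pow_eq_pow_iff_modEq (x := b) (n := m) (m := 1)).2 hm
      rwa [pow_one] at this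
    exact hc (by rw [h4])

theorem hUP4 (M : Ideal (integralClosure ℤ ℂ)) (h : Setup 2 M) (G : Type) [Group G] [Finite G]
    (hO : IsOp 2 (⊤ : Subgroup G) ⊥) (χ : G → ℂ) (hχ : χ ∈ Irr G)
    (hr : Induces M (fun x => χ x⁻¹) χ) (g : G) (hg : ¬ InM M (omega χ g))
    (hgr : g⁻¹ ∈ conjugatesOf g)
    (hroot : ∀ b : G, b ^ 4 = g → (∃ m : ℕ, m.Coprime 2 ∧ m ≡ 1 [MOD orderOf g] ∧
      ¬ IsConj b (b ^ m)) ∨ ∀ r s : G, r ^ 2 = 1 → s ^ 2 = 1 → r * s ≠ b) : (2 : ℤ) ∣ aB 2 M χ :=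
  UP4 (FXG uODV) uLDB (DBL uLDB uBLK) (BR2 uLDB uTW2) uFT2 uZT0 gZT1 gZT4
    Pool.Agent.DR.AllDI.iC3 Pool.Agent.GR.All.dTI gHH1 gHH2 gHH3 M h G hO χ hχ hr g hg hgr hroot

/-- a defect group of the principal block is a Sylow subgroup -/
theorem FinH_syl (M : Ideal (integralClosure ℤ ℂ)) (h : Setup 2 M) (G : Type) [Group G] [Finite G]
    (χ : G → ℂ) (hp : Induces M (fun _ => (1 : ℂ)) χ) (D : Subgroup G) (x : G)
    (hD : DefAt 2 M χ D x) : ∃ S : Sylow 2 G, (S : Subgroup G) = D := by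
  have : Fact (Nat.Prime 2) := ⟨Nat.prime_two⟩
  have hx : ¬ 2 ∣ (Subgroup.centralizer ({x} : Set G)).index := by
    intro hdvd
    apply hD.ne
    obtain ⟨a, ha, hea⟩ := hp x
    have h1 : omega χ x = omega (fun _ => (1 : ℂ)) x - (a : ℂ) := by
      rw [← hea]
      ring
    rw [h1, PRB_omega]
    exact InM.sub h ((InM.natCast h _).2 hdvd) (InM.coe h ha)
  have hcard : Nat.card D = 2 ^ (Nat.card G).factorization 2 := by
    rw [hD.card]
    unfold pp
    have h1 := Subgroup.card_mul_index (Subgroup.centralizer ({x} : Set G))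
    have h2 : padicValNat 2 (Nat.card G) =
        padicValNat 2 (Nat.card (Subgroup.centralizer ({x} : Set G))) := by
      rw [← h1, padicValNat.mul Nat.card_pos.ne' (Subgroup.index_ne_zero_of_finite),
        padicValNat.eq_zero_of_not_dvd hx, add_zero]
    rw [Nat.factorization_def _ Nat.prime_two, h2]
  exact ⟨Sylow.ofCard D hcard, rfl⟩

theorem FinH_main (p e : ℕ) (hpe : p = 2 ∧ e = 4 ∨ p = 3 ∧ e = 3)
    (M : Ideal (integralClosure ℤ ℂ)) (hM : M.IsMaximal) (hpM : (p : integralClosure ℤ ℂ) ∈ M)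
    (G : Type) [Group G] [Finite G] (hG : IsOp p (⊤ : Subgroup G) ⊥) (χ : G → ℂ) (hχ : χ ∈ Irr G)
    (h : Pool.Agent.M23h.Cond p e M χ) (E A : Type) [Group E] [Group A] [Finite E]
    (X : Extension G E A) (W : Subgroup A) (hW : IsPGroup p W) (U : Subgroup A) (hU : U ≤ W) :
    (p : ℤ) ∣ ∑ᶠ d : ℤ, ∑ᶠ V : {V : Subgroup A // V ⊓ W = U}, altSum X p M χ d V.1 := by
  have hpr : p.Prime := by
    rcases hpe with ⟨rfl, -⟩ | ⟨rfl, -⟩
    · exact Nat.prime_two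
    · exact Nat.prime_three
  have hS : Setup p M := ⟨hpr, hM, hpM⟩
  have : Fact p.Prime := ⟨hpr⟩
  have hpa : ∃ a : ℕ, e = p ^ a ∧ (p = 2 ∧ a = 2 ∨ p = 3 ∧ a = 1) := by
    rcases hpe with ⟨rfl, rfl⟩ | ⟨rfl, rfl⟩
    · exact ⟨2, by norm_num, Or.inl ⟨rfl, rfl⟩⟩
    · exact ⟨1, by norm_num, Or.inr ⟨rfl, rfl⟩⟩
  refine FinG_ext p M G χ hχ ?_ E A X W hW U hU
  rcases h with ⟨D, hD, hne, hy⟩ | ⟨g, hg, hy⟩
  · obtain ⟨x, hx⟩ := FinH_defAt hS hχ hD
    obtain ⟨z, hz, hzc, hzo⟩ := FinG_center hx.pgrp hne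
    by_cases hpc : p = 2 ∧ Induces M (fun _ => (1 : ℂ)) χ
    · obtain ⟨rfl, hpb⟩ := hpc
      have he : e = 4 := by
        rcases hpe with ⟨-, h1⟩ | ⟨h1, -⟩
        · exact h1
        · norm_num at h1
      subst he
      obtain ⟨S, hSD⟩ := FinH_syl M hS G χ hpb D x hx
      have hz2 : z ^ 2 = 1 := by
        rw [← hzo, pow_orderOf_eq_one]
      have hzcS : ∀ d ∈ (S : Subgroup G), z * d = d * z := by
        intro d hd
        rw [hSD] at hd
        exact hzc d hd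
      obtain ⟨h1, h2, h3⟩ := PRB M hS G χ hpb S z hzcS hz2
      refine hUP4 M hS G hG χ hχ h1 z h2 h3 (PRC G S z hzcS hz2 ?_)
      rw [hSD]
      intro y hyD hyz
      by_cases hc : Pool.Agent.M23h.PowerConj D 2 y
      · right
        intro r hr s hs hr2 hs2 hrs
        have ho : orderOf y = 2 * 2 ^ 2 := FinG_order (a := 2) hpr hzo hyz
        have h4 := hy y hyD ho (by rw [hyz]; exact hzc) hc
        exact h4.2.2 ⟨r, hr, s, hs, hr2, hs2, hrs⟩
      · left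
        obtain ⟨m, -, hm, hmd⟩ := FinH_root' hc
        exact ⟨m, Nat.odd_iff.2 hm, hmd⟩
    · obtain ⟨a, rfl, hpa⟩ := hpa
      refine gUP3 p a hpa M hS G hG χ hχ (z * x) (gDG6 p M hS G χ hχ D x hx z hz hzc)
        (DG5 p a G D x z hx.reg hx.le hx.pgrp hx.card hz hzc fun y hyD hyz => ?_)
      by_cases hc : Pool.Agent.M23h.PowerConj D p y
      · exfalso
        have h4 := hy y hyD (FinG_order hpr hzo hyz) (by rw [hyz]; exact hzc) hc
        exact hpc ⟨h4.1, h4.2.1⟩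
      · obtain ⟨m, -, hm, hmd⟩ := FinH_root' hc
        rw [hzo]
        exact ⟨m, hm, hmd⟩
  · by_cases hpc : p = 2 ∧ Induces M (fun x => χ x⁻¹) χ ∧ IsConj g g⁻¹
    · obtain ⟨rfl, hrb, hgr⟩ := hpc
      have he : e = 4 := by
        rcases hpe with ⟨-, h1⟩ | ⟨h1, -⟩
        · exact h1
        · norm_num at h1
      subst he
      refine hUP4 M hS G hG χ hχ hrb g ((FinH_nonVan hS hχ g).1 hg) hgr ?_
      intro b hb
      by_cases hc : Pool.Agent.M23h.PowerConj ⊤ (orderOf g) b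
      · right
        intro r s hr2 hs2 hrs
        exact (hy b hb hc).2.2.2
          ⟨r, Subgroup.mem_top r, s, Subgroup.mem_top s, hr2, hs2, hrs⟩
      · left
        obtain ⟨m, hmc, hm, hcj⟩ := FinH_root hc
        exact ⟨m, FinH_odd hb m hm hcj hmc, hm, hcj⟩
    · obtain ⟨a, rfl, hpa⟩ := hpa
      refine gUP3 p a hpa M hS G hG χ hχ g ((FinH_nonVan hS hχ g).1 hg) ?_
      intro b hb
      by_cases hc : Pool.Agent.M23h.PowerConj ⊤ (orderOf g) b
      · exfalso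
        have h4 := hy b hb hc
        exact hpc ⟨h4.1, h4.2.1, h4.2.2.1⟩
      · obtain ⟨m, -, hm, hcj⟩ := FinH_root hc
        exact ⟨m, hm, hcj⟩

end Pool.Agent.OB
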