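import Pool.Agent.helper12.OB.RFL
import Pool.Agent.helper22.OB.SpecD

/-!
# Project ob (MP_baa4d7_al): the principal 2-block

Let `S` be a Sylow 2-subgroup of `G` and `z ∈ Z(S)` with `z ^ 2 = 1`. Then the principal block and `z` are real, and
`omega_B(z)` is not in `M`.
-/

set_option autoImplicit false

namespace Pool.Agent.OB

open Pool.Agent.helper58.DC Pool.Agent.DI Pool.Agent.GR
open scoped Pointwise

section

variable {G : Type} [Group G]

theorem PRB_card [Finite G] (g : G) :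
    (conjugatesOf g).ncard = (Subgroup.centralizer ({g} : Set G)).index := by
  classical
  have h1 : conjugatesOf g = MulAction.orbit (ConjAct G) g := by
    ext x
    rw [ConjAct.mem_orbit_conjAct]
    exact ⟨fun h => (show IsConj g x from h).symm, fun h => (show IsConj g x from h.symm)⟩
  rw [h1, ← Nat.card_coe_set_eq, Nat.card_congr (MulAction.orbitEquivQuotientStabilizer (ConjAct G) g)]
  have h2 : Nat.card (MulAction.stabilizer (ConjAct G) g) =
      Nat.card (Subgroup.centralizer ({g} : Set G)) := by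
    rw [Subgroup.nat_card_centralizer_nat_card_stabilizer]
  have h3 : (MulAction.stabilizer (ConjAct G) g).index * Nat.card (MulAction.stabilizer (ConjAct G) g)
      = Nat.card G := by
    rw [Subgroup.index_mul_card]
    rfl
  have h4 := Subgroup.index_mul_card (Subgroup.centralizer ({g} : Set G))
  rw [← h3, h2] at h4
  have h5 : Nat.card (Subgroup.centralizer ({g} : Set G)) ≠ 0 := Nat.card_pos.ne'
  have h6 := Nat.eq_of_mul_eq_mul_right (Nat.pos_of_ne_zero h5) h4
  rw [h6]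
  rfl

theorem PRB_omega [Finite G] (g : G) :
    omega (fun _ => (1 : ℂ)) g = ((Subgroup.centralizer ({g} : Set G)).index : ℂ) := by
  unfold omega
  rw [div_one, ← PRB_card]
  have hf : (conjugatesOf g).Finite := Set.toFinite _
  rw [finsum_mem_eq_finite_toFinset_sum _ hf, Finset.sum_const, nsmul_eq_mul, mul_one,
    Set.ncard_eq_toFinset_card _ hf]

/-- two involutions whose product has the central fourth power `z` with `z ^ 2 = 1` generate a 2-group -/
theorem PRB_two (r s : G) (hr : r ^ 2 = 1) (hs : s ^ 2 = 1) (h : ((r * s) ^ 4) ^ 2 = 1) :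
    IsPGroup 2 (Subgroup.closure ({r, s} : Set G)) := by
  have ir : r⁻¹ = r := by rw [inv_eq_iff_mul_eq_one, ← sq, hr]
  have is' : s⁻¹ = s := by rw [inv_eq_iff_mul_eq_one, ← sq, hs]
  have h1 : IsPGroup 2 (Subgroup.zpowers (r * s)) := by
    intro w
    refine ⟨3, ?_⟩
    obtain ⟨w, hw⟩ := w
    obtain ⟨i, hi⟩ := Subgroup.mem_zpowers_iff.1 hw
    apply Subtype.ext
    show w ^ 2 ^ 3 = 1
    have h2 : (r * s) ^ (2 ^ 3) = 1 := by
      rw [← h, ← pow_mul]
      norm_num
    rw [← hi, ← zpow_natCast, ← zpow_mul, mul_comm, zpow_mul, zpow_natCast, h2, one_zpow]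
  have h3 : IsPGroup 2 (Subgroup.zpowers r) := by
    intro w
    refine ⟨1, ?_⟩
    obtain ⟨w, hw⟩ := w
    obtain ⟨i, hi⟩ := Subgroup.mem_zpowers_iff.1 hw
    apply Subtype.ext
    show w ^ 2 ^ 1 = 1
    rw [pow_one, ← hi, ← zpow_natCast, ← zpow_mul, mul_comm, zpow_mul, zpow_natCast, hr, one_zpow]
  have h4 : Subgroup.zpowers r ≤ Subgroup.normalizer (Subgroup.zpowers (r * s) : Set G) := by
    rw [Subgroup.zpowers_le, Subgroup.mem_normalizer_iff]
    have h5 : r * (r * s) * r⁻¹ = (r * s)⁻¹ := by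
      rw [mul_inv_rev, ir, is', ← mul_assoc, ← sq, hr, one_mul]
    have h6 : ∀ x, x ∈ Subgroup.zpowers (r * s) → r * x * r⁻¹ ∈ Subgroup.zpowers (r * s) := by
      intro x hx
      obtain ⟨i, rfl⟩ := Subgroup.mem_zpowers_iff.1 hx
      rw [← conj_zpow, h5]
      exact Subgroup.zpow_mem _ (Subgroup.inv_mem _ (Subgroup.mem_zpowers _)) i
    intro x
    refine ⟨h6 x, fun hx => ?_⟩
    have h7 := h6 _ hx
    have h8 : r * (r * x * r⁻¹) * r⁻¹ = x := by
      rw [ir, mul_assoc, mul_assoc, ← sq, hr, mul_one, ← mul_assoc, ← sq, hr, one_mul]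
    rwa [h8] at h7
  have h9 := h3.to_sup_of_normal_right' h1 h4
  refine h9.to_le ?_
  rw [Subgroup.closure_le]
  rintro x (rfl | rfl)
  · exact Subgroup.mem_sup_left (Subgroup.mem_zpowers _)
  · have h10 : r * (r * x) ∈ Subgroup.zpowers r ⊔ Subgroup.zpowers (r * x) :=
      Subgroup.mul_mem _ (Subgroup.mem_sup_left (Subgroup.mem_zpowers _))
        (Subgroup.mem_sup_right (Subgroup.mem_zpowers _))
    rwa [← mul_assoc, ← sq, hr, one_mul] at h10

/-- Sylow: conjugation of a 2-group of `C` into a Sylow 2-subgroup `S ≤ C` of `G` -/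
theorem PRB_syl [Finite G] (S : Sylow 2 G) (C H : Subgroup G) (hSC : (S : Subgroup G) ≤ C)
    (hHC : H ≤ C) (hH : IsPGroup 2 H) : ∃ c ∈ C, ∀ h ∈ H, c * h * c⁻¹ ∈ (S : Subgroup G) := by
  let P : Sylow 2 C := S.subtype hSC
  have h1 : IsPGroup 2 (H.subgroupOf C) := hH.of_equiv (Subgroup.subgroupOfEquivOfLe hHC).symm
  obtain ⟨Q, hQ⟩ := h1.exists_le_sylow
  obtain ⟨c, hc⟩ := MulAction.exists_smul_eq C Q P
  refine ⟨c, c.2, fun h hh => ?_⟩
  have h2 : (⟨h, hHC hh⟩ : C) ∈ Q := hQ (Subgroup.mem_subgroupOf.2 hh)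
  have h3 : MulAut.conj c • (⟨h, hHC hh⟩ : C) ∈ MulAut.conj c • (Q : Subgroup C) :=
    Subgroup.smul_mem_pointwise_smul _ _ _ h2
  have h4 : MulAut.conj c • (Q : Subgroup C) = P := by
    rw [← Sylow.coe_subgroup_smul, hc]
  rw [h4, MulAut.smul_def, MulAut.conj_apply] at h3
  have h5 : ((c * ⟨h, hHC hh⟩ * c⁻¹ : C) : G) ∈ (S : Subgroup G) := by
    have h6 : (P : Subgroup C) = (S : Subgroup G).subgroupOf C := rfl
    rw [h6] at h3
    exact Subgroup.mem_subgroupOf.1 h3
  exact h5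

end

/-- **PRB** -/
theorem PRB (M : Ideal (integralClosure ℤ ℂ)) (h : Setup 2 M) (G : Type) [Group G] [Finite G]
    (χ : G → ℂ) (hp : Induces M (fun _ => (1 : ℂ)) χ) (S : Sylow 2 G) (z : G)
    (hzc : ∀ d ∈ (S : Subgroup G), z * d = d * z) (hz2 : z ^ 2 = 1) :
    Induces M (fun x => χ x⁻¹) χ ∧ ¬ InM M (omega χ z) ∧ z⁻¹ ∈ conjugatesOf z := by
  have hcen : ∀ g : G, Subgroup.centralizer ({g⁻¹} : Set G) = Subgroup.centralizer ({g} : Set G) := by
    intro g
    ext x
    rw [Subgroup.mem_centralizer_singleton_iff, Subgroup.mem_centralizer_singleton_iff]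
    exact ⟨fun h1 => (Commute.inv_right_iff.1 (show Commute x g⁻¹ from h1)).eq,
      fun h1 => (Commute.inv_right_iff.2 (show Commute x g from h1)).eq⟩
  refine ⟨fun g => ?_, ?_, ?_⟩
  · obtain ⟨a, ha, hea⟩ := hp g⁻¹
    obtain ⟨b, hb, heb⟩ := hp g
    have e1 : omega (fun x => χ x⁻¹) g = omega χ g⁻¹ := RVZ_omega χ g
    refine ⟨b - a, M.sub_mem hb ha, ?_⟩
    rw [e1]
    push_cast
    rw [← hea, ← heb, PRB_omega, PRB_omega, hcen]
    ring
  · intro hin
    obtain ⟨a, ha, hea⟩ := hp z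
    have h1 : InM M (((Subgroup.centralizer ({z} : Set G)).index : ℕ) : ℂ) := by
      rw [← PRB_omega]
      have h2 : omega (fun _ => (1 : ℂ)) z = (a : ℂ) + omega χ z := by
        rw [← hea]
        ring
      rw [h2]
      exact InM.add h (InM.coe h ha) hin
    have h3 := (InM.natCast h _).1 h1
    have h4 : (S : Subgroup G) ≤ Subgroup.centralizer ({z} : Set G) := by
      intro d hd
      rw [Subgroup.mem_centralizer_singleton_iff]
      exact (hzc d hd).symm
    have h5 := Subgroup.index_dvd_of_le h4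
    have : Fact (Nat.Prime 2) := ⟨Nat.prime_two⟩
    exact S.not_dvd_index (h3.trans h5)
  · have h1 : z⁻¹ = z := by rw [inv_eq_iff_mul_eq_one, ← sq, hz2]
    rw [h1]
    exact IsConj.refl z

end Pool.Agent.OB
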